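import Mathlib

/-!
# Sums of characters of the torus `∏ s i = 1` which are constant

Proof. Put `s i = exp (n θ i - ∑ θ j)`, so that `∏ s i = 1`; then `∏ s i ^ ν i = exp (∑ w j θ j)` with
`w j = n ν j - N`, as `∑ ν i = N`. The maps `θ ↦ exp (∑ w j θ j)` are monoid homomorphisms from the
additive group `Fin n → ℝ` to `ℝ`, pairwise distinct for distinct `w`, and the vector of `μ` is not zero
since `μ i ≠ μ j` for some `i, j`. `linearIndependent_monoidHom`: the coefficient of the character of
`μ` vanishes.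
-/

set_option autoImplicit false

namespace Pool.Agent.H9.IR

open Finset

/-- the character with exponent vector `w` -/
private noncomputable def Ech {n : ℕ} (w : Fin n → ℝ) : Multiplicative (Fin n → ℝ) →* ℝ where
  toFun θ := Real.exp (∑ j, w j * Multiplicative.toAdd θ j)
  map_one' := by simp
  map_mul' θ η := by
    rw [← Real.exp_add, ← sum_add_distrib]
    congr 1
    refine sum_congr rfl fun j _ => ?_
    rw [toAdd_mul, Pi.add_apply]
    ring

private lemma Ech_inj {n : ℕ} : Function.Injective (Ech (n := n)) := by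
  intro w v h
  funext j
  have h1 := DFunLike.congr_fun h (Multiplicative.ofAdd (Pi.single j (1 : ℝ)))
  have h2 : ∀ u : Fin n → ℝ, Ech u (Multiplicative.ofAdd (Pi.single j (1 : ℝ))) =
      Real.exp (u j) := by
    intro u
    change Real.exp (∑ i, u i * (Pi.single j (1 : ℝ) : Fin n → ℝ) i) = Real.exp (u j)
    congr 1
    rw [sum_eq_single j]
    · simp
    · intro b _ hb
      simp [Pi.single_eq_of_ne hb]
    · simp
  rw [h2, h2] at h1
  exact Real.exp_injective h1

theorem coeff_zero_of_const {n : ℕ} (S : Finset (Fin n → ℕ)) (N : ℕ) (hS : ∀ ν ∈ S, ∑ i, ν i = N)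
    (c : (Fin n → ℕ) → ℝ) (M : ℝ)
    (h : ∀ s : Fin n → ℝ, (∀ i, 0 < s i) → ∏ i, s i = 1 → ∑ ν ∈ S, (∏ i, s i ^ ν i) * c ν = M)
    (μ : Fin n → ℕ) (hμS : μ ∈ S) (hμ : ∃ i j, μ i ≠ μ j) : c μ = 0 := by
  classical
  obtain ⟨i0, j0, hij⟩ := hμ
  have hn : 0 < n := Fin.pos i0
  have hnR : (n : ℝ) ≠ 0 := by exact_mod_cast hn.ne'
  obtain ⟨w, hw⟩ : ∃ w : (Fin n → ℕ) → (Fin n → ℝ), w = fun ν j => (n : ℝ) * ν j - N := ⟨_, rfl⟩
  have hwinj : Function.Injective w := by
    intro ν ν' h1
    funext j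
    have h2 := congrFun h1 j
    rw [hw] at h2
    simp only at h2
    have h3 : (n : ℝ) * ν j = n * ν' j := by linarith
    exact_mod_cast mul_left_cancel₀ hnR h3
  have hwμ : w μ ≠ 0 := by
    intro h0
    apply hij
    have h1 := congrFun h0 i0
    have h2 := congrFun h0 j0
    rw [hw] at h1 h2
    simp only [Pi.zero_apply] at h1 h2
    have h3 : (n : ℝ) * μ i0 = n * μ j0 := by linarith
    exact_mod_cast mul_left_cancel₀ hnR h3
  have hchar : ∀ θ : Multiplicative (Fin n → ℝ), ∑ ν ∈ S, c ν * Ech (w ν) θ = M * Ech 0 θ := by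
    intro θ
    obtain ⟨t, ht⟩ : ∃ t : Fin n → ℝ, t = Multiplicative.toAdd θ := ⟨_, rfl⟩
    have h1 := h (fun i => Real.exp (n * t i - ∑ j, t j)) (fun i => Real.exp_pos _) (by
      rw [← Real.exp_sum, sum_sub_distrib, ← mul_sum, sum_const, card_univ, Fintype.card_fin,
        nsmul_eq_mul, sub_self, Real.exp_zero])
    have h2 : Ech 0 θ = 1 := by
      change Real.exp (∑ j, (0 : Fin n → ℝ) j * Multiplicative.toAdd θ j) = 1
      simp
    rw [h2, mul_one, ← h1]
    refine sum_congr rfl fun ν hν => ?_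
    have h3 : Ech (w ν) θ = ∏ i, Real.exp (n * t i - ∑ j, t j) ^ ν i := by
      change Real.exp (∑ j, w ν j * Multiplicative.toAdd θ j) = _
      rw [← ht]
      have h4 : ∀ i, Real.exp (n * t i - ∑ j, t j) ^ ν i =
          Real.exp (ν i * (n * t i - ∑ j, t j)) := fun i => by rw [← Real.exp_nat_mul]
      rw [prod_congr rfl fun i _ => h4 i, ← Real.exp_sum]
      congr 1
      have h5 : (∑ i, (ν i : ℝ)) = N := by exact_mod_cast hS ν hν
      have h6 : ∑ i, (ν i : ℝ) * (n * t i - ∑ j, t j) =
          ∑ i, (n : ℝ) * ν i * t i - (∑ i, (ν i : ℝ)) * ∑ j, t j := by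
        rw [sum_mul, ← sum_sub_distrib]
        exact sum_congr rfl fun i _ => by ring
      rw [h6, h5, mul_sum, ← sum_sub_distrib, hw]
      exact sum_congr rfl fun i _ => by ring
    rw [h3]
    ring
  have hli := (linearIndependent_monoidHom (Multiplicative (Fin n → ℝ)) ℝ).comp
    (Ech (n := n)) Ech_inj
  rw [linearIndependent_iff'] at hli
  have hsum := hli (insert 0 (S.image w))
    (fun v => (∑ ν ∈ S with w ν = v, c ν) - if v = 0 then M else 0) (by
      funext θ
      simp only [Finset.sum_apply, Pi.smul_apply, smul_eq_mul, Function.comp_apply, Pi.zero_apply,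
        sub_mul, sum_sub_distrib, ite_mul, zero_mul]
      rw [sum_ite_eq' (insert 0 (S.image w)) 0, if_pos (mem_insert_self _ _)]
      have h1 : ∑ v ∈ insert 0 (S.image w), (∑ ν ∈ S with w ν = v, c ν) * Ech v θ =
          ∑ ν ∈ S, c ν * Ech (w ν) θ := by
        rw [← sum_fiberwise_of_maps_to (s := S) (t := insert 0 (S.image w)) (g := w)
          (fun ν hν => mem_insert_of_mem (mem_image_of_mem w hν))]
        refine sum_congr rfl fun v _ => ?_
        rw [sum_mul]
        refine sum_congr rfl fun ν hν => ?_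
        rw [(mem_filter.1 hν).2]
      rw [h1, hchar θ, sub_self]) (w μ) (mem_insert_of_mem (mem_image_of_mem w hμS))
  rw [if_neg hwμ, sub_zero] at hsum
  have h1 : (S.filter fun ν => w ν = w μ) = {μ} := by
    ext ν
    rw [mem_filter, mem_singleton]
    constructor
    · rintro ⟨_, h2⟩
      exact hwinj h2
    · rintro rfl
      exact ⟨hμS, rfl⟩
  rw [h1, sum_singleton] at hsum
  exact hsum

end Pool.Agent.H9.IR
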