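import Pool.Agent.H9.IR.Defs

/-!
# Row components

Proofs. The row degree vector of a monomial `α` is `fun i => ∑ j, α (i, j)`. A diagonal matrix `s`
multiplies the monomial `α` by `∏ i, s i ^ (row degree i)`: this gives `rc_RW`, `pair_rc`, and
`evM (diagonal s * Y) p = ∑ ν (∏ s^ν) evM Y (rc ν p)` (sum over the finite set of row degree vectors of
`p`). `rc_BW`: compare coefficients of `s^ν` in `evM (diagonal s * (Y * B)) p` (polynomials in `s`:
`MvPolynomial.funext`). `rc_one`: for `p` with `BW μ p`, `evM (diagonal s * 1) p = (∏ s^μ) evM 1 p`.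
-/

set_option autoImplicit false

open MvPolynomial Matrix

namespace Pool.Agent.H9.IR

open Pool.Agent.H9.IQ

/-- row degrees of a monomial -/
private def rd {n : ℕ} (α : Fin n × Fin n →₀ ℕ) : Fin n → ℕ := fun i => ∑ j, α (i, j)

private theorem rc_eq {n : ℕ} (ν : Fin n → ℕ) (p : MvPolynomial (Fin n × Fin n) ℝ) :
    rc ν p = ∑ α ∈ p.support with rd α = ν, monomial α (coeff α p) := by
  unfold rc
  exact Finset.sum_congr (Finset.filter_congr fun α _ => (funext_iff (f := rd α) (g := ν)).symm)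
    fun _ _ => rfl

private theorem evM_sum {n : ℕ} {ι : Type} (Y : Matrix (Fin n) (Fin n) ℝ) (S : Finset ι)
    (f : ι → MvPolynomial (Fin n × Fin n) ℝ) : evM Y (∑ a ∈ S, f a) = ∑ a ∈ S, evM Y (f a) := by
  unfold evM
  exact map_sum _ _ _

private theorem evM_mono {n : ℕ} (s : Fin n → ℝ) (Y : Matrix (Fin n) (Fin n) ℝ)
    (α : Fin n × Fin n →₀ ℕ) (c : ℝ) :
    evM (Matrix.diagonal s * Y) (monomial α c) =
      (∏ i, s i ^ rd α i) * evM Y (monomial α c) := by
  unfold evM
  rw [eval_monomial, eval_monomial, Finsupp.prod_fintype _ _ fun _ => pow_zero _,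
    Finsupp.prod_fintype _ _ fun _ => pow_zero _]
  have h1 : ∏ q : Fin n × Fin n, (Matrix.diagonal s * Y) q.1 q.2 ^ α q =
      (∏ q : Fin n × Fin n, s q.1 ^ α q) * ∏ q : Fin n × Fin n, Y q.1 q.2 ^ α q := by
    rw [← Finset.prod_mul_distrib]
    refine Finset.prod_congr rfl fun q _ => ?_
    rw [Matrix.diagonal_mul, mul_pow]
  have h2 : ∏ q : Fin n × Fin n, s q.1 ^ α q = ∏ i, s i ^ rd α i := by
    rw [Fintype.prod_prod_type]
    refine Finset.prod_congr rfl fun i _ => ?_
    unfold rd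
    exact Finset.prod_pow_eq_pow_sum Finset.univ (fun j => α (i, j)) (s i)
  rw [h1, h2]
  ring

private theorem evM_diag {n : ℕ} (s : Fin n → ℝ) (Y : Matrix (Fin n) (Fin n) ℝ)
    (p : MvPolynomial (Fin n × Fin n) ℝ) (S : Finset (Fin n → ℕ)) (hS : ∀ α ∈ p.support, rd α ∈ S) :
    evM (Matrix.diagonal s * Y) p = ∑ ν ∈ S, (∏ i, s i ^ ν i) * evM Y (rc ν p) := by
  have h1 : evM (Matrix.diagonal s * Y) p =
      ∑ α ∈ p.support, (∏ i, s i ^ rd α i) * evM Y (monomial α (coeff α p)) := by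
    conv_lhs => rw [← MvPolynomial.support_sum_monomial_coeff p]
    rw [evM_sum]
    exact Finset.sum_congr rfl fun α _ => evM_mono s Y α _
  rw [h1, ← Finset.sum_fiberwise_of_maps_to hS]
  refine Finset.sum_congr rfl fun ν _ => ?_
  rw [rc_eq, evM_sum, Finset.mul_sum]
  refine Finset.sum_congr rfl fun α hα => ?_
  rw [(Finset.mem_filter.1 hα).2]

private theorem cmp {n : ℕ} (S : Finset (Fin n → ℕ)) (c : (Fin n → ℕ) → ℝ)
    (h : ∀ s : Fin n → ℝ, ∑ ν ∈ S, (∏ i, s i ^ ν i) * c ν = 0) (μ : Fin n → ℕ) (hμ : μ ∈ S) :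
    c μ = 0 := by
  have h1 : (∑ ν ∈ S, monomial (Finsupp.equivFunOnFinite.symm ν) (c ν) :
      MvPolynomial (Fin n) ℝ) = 0 := by
    refine MvPolynomial.funext fun s => ?_
    rw [map_sum, map_zero, ← h s]
    refine Finset.sum_congr rfl fun ν _ => ?_
    rw [eval_monomial, Finsupp.prod_fintype _ _ fun _ => pow_zero _, mul_comm]
    rfl
  have h2 := congrArg (coeff (Finsupp.equivFunOnFinite.symm μ)) h1
  rw [coeff_sum, coeff_zero, Finset.sum_eq_single μ] at h2
  · rw [coeff_monomial, if_pos rfl] at h2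
    exact h2
  · intro ν _ hν
    rw [coeff_monomial, if_neg]
    intro h3
    exact hν (Finsupp.equivFunOnFinite.symm.injective h3)
  · intro h3
    exact absurd hμ h3

private theorem rc_zero {n : ℕ} (ν : Fin n → ℕ) (p : MvPolynomial (Fin n × Fin n) ℝ)
    (h : ∀ α ∈ p.support, rd α ≠ ν) : rc ν p = 0 := by
  rw [rc_eq, Finset.filter_false_of_mem h, Finset.sum_empty]

theorem rc_RW {n : ℕ} (ν : Fin n → ℕ) (p : MvPolynomial (Fin n × Fin n) ℝ) : RW ν (rc ν p) := by
  intro s Y
  rw [rc_eq, evM_sum, evM_sum, Finset.mul_sum]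
  refine Finset.sum_congr rfl fun α hα => ?_
  rw [evM_mono, (Finset.mem_filter.1 hα).2]

theorem rc_BW {n : ℕ} (μ ν : Fin n → ℕ) (p : MvPolynomial (Fin n × Fin n) ℝ) (hp : BW μ p) :
    BW μ (rc ν p) := by
  intro B Y hB
  have hS : ∀ α ∈ p.support, rd α ∈ insert ν (p.support.image rd) := fun α hα =>
    Finset.mem_insert_of_mem (Finset.mem_image_of_mem _ hα)
  have h := cmp (insert ν (p.support.image rd))
    (fun ν => evM (Y * B) (rc ν p) - (∏ i, B i i ^ μ i) * evM Y (rc ν p)) (fun s => by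
      have h1 := hp B (Matrix.diagonal s * Y) hB
      rw [Matrix.mul_assoc, evM_diag s (Y * B) p _ hS, evM_diag s Y p _ hS, Finset.mul_sum,
        ← sub_eq_zero, ← Finset.sum_sub_distrib] at h1
      rw [← h1]
      exact Finset.sum_congr rfl fun ν _ => by ring) ν (Finset.mem_insert_self _ _)
  exact sub_eq_zero.1 h

theorem rc_one {n : ℕ} (μ : Fin n → ℕ) (p : MvPolynomial (Fin n × Fin n) ℝ) (hp : BW μ p) :
    evM 1 (rc μ p) = evM 1 p := by
  have hS : ∀ α ∈ p.support, rd α ∈ insert μ (p.support.image rd) := fun α hα =>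
    Finset.mem_insert_of_mem (Finset.mem_image_of_mem _ hα)
  have h := cmp (insert μ (p.support.image rd))
    (fun ν => evM 1 (rc ν p) - if ν = μ then evM 1 p else 0) (fun s => by
      have h1 := hp (Matrix.diagonal s) 1 fun i j hij => Matrix.diagonal_apply_ne _ hij.ne'
      rw [Matrix.one_mul] at h1
      have h2 := evM_diag s 1 p _ hS
      rw [Matrix.mul_one, h1] at h2
      have h3 : ∏ i, (Matrix.diagonal s) i i ^ μ i = ∏ i, s i ^ μ i :=
        Finset.prod_congr rfl fun i _ => by rw [Matrix.diagonal_apply_eq]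
      rw [h3] at h2
      have h4 : ∑ ν ∈ insert μ (p.support.image rd), (∏ i, s i ^ ν i) *
          (if ν = μ then evM 1 p else 0) = (∏ i, s i ^ μ i) * evM 1 p := by
        rw [Finset.sum_eq_single μ]
        · rw [if_pos rfl]
        · intro ν _ hν
          rw [if_neg hν, mul_zero]
        · intro h5
          exact absurd (Finset.mem_insert_self _ _) h5
      simp only [mul_sub]
      rw [Finset.sum_sub_distrib, h4, h2, sub_self]) μ (Finset.mem_insert_self _ _)
  simp only [if_true] at h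
  exact sub_eq_zero.1 h

end Pool.Agent.H9.IR
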