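import Pool.Agent.H9.IR.Defs

/-!
# Row components

Proofs. The row degree vector of a monomial `α` is `fun i => ∑ j, α (i, j)`. A diagonal matrix `s`
multiplies the monomial `α` by `∏ i, s i ^ (row degree i)`: this gives `pair_rc`. For `row_sum` take
the scalar matrix 2.
-/

set_option autoImplicit false

open MvPolynomial Matrix

namespace Pool.Agent.H9.IR

open Pool.Agent.H9.IQ

private theorem cp_sub {n : ℕ} (s : Fin n → ℝ) (q : Fin n × Fin n) :
    (∑ q' : Fin n × Fin n, C (big n (Matrix.diagonal s) q q') * X q' :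
      MvPolynomial (Fin n × Fin n) ℝ) = C (s q.1) * X q := by
  rw [Finset.sum_eq_single q]
  · congr 2
    show (if q.2 = q.2 then Matrix.diagonal s q.1 q.1 else 0) = s q.1
    rw [if_pos rfl, Matrix.diagonal_apply_eq]
  · intro q' _ hq
    have h1 : big n (Matrix.diagonal s) q q' = 0 := by
      show (if q.2 = q'.2 then Matrix.diagonal s q.1 q'.1 else 0) = 0
      split_ifs with h
      · refine Matrix.diagonal_apply_ne s fun h2 => hq ?_
        exact (Prod.ext h2 h).symm
      · rfl
    rw [h1, C_0, zero_mul]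
  · intro h
    exact absurd (Finset.mem_univ q) h

private theorem cp_prod {n : ℕ} (s : Fin n → ℝ) (α : Fin n × Fin n →₀ ℕ) :
    ∏ q : Fin n × Fin n, s q.1 ^ α q = ∏ i, s i ^ (∑ j, α (i, j)) := by
  rw [Fintype.prod_prod_type]
  refine Finset.prod_congr rfl fun i _ => ?_
  exact Finset.prod_pow_eq_pow_sum Finset.univ (fun j => α (i, j)) (s i)

/-- the coefficients of `p(s Y)` -/
private theorem cp_coeff {n : ℕ} (s : Fin n → ℝ) (p : MvPolynomial (Fin n × Fin n) ℝ)
    (α : Fin n × Fin n →₀ ℕ) :
    coeff α (lsub (big n (Matrix.diagonal s)) p) = (∏ i, s i ^ (∑ j, α (i, j))) * coeff α p := by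
  classical
  have h0 : (fun q : Fin n × Fin n => (∑ q' : Fin n × Fin n,
      C (big n (Matrix.diagonal s) q q') * X q' : MvPolynomial (Fin n × Fin n) ℝ)) =
      fun q => C (s q.1) * X q := by
    funext q
    exact cp_sub s q
  unfold lsub
  rw [h0]
  induction p using MvPolynomial.induction_on' with
  | monomial β c =>
    have h1 : aeval (fun q : Fin n × Fin n => (C (s q.1) * X q : MvPolynomial (Fin n × Fin n) ℝ))
        (monomial β c) = monomial β (c * ∏ q, s q.1 ^ β q) := by
      rw [aeval_monomial, MvPolynomial.algebraMap_eq, Finsupp.prod_fintype _ _ (fun q => pow_zero _)]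
      have h2 : ∏ q, (C (s q.1) * X q : MvPolynomial (Fin n × Fin n) ℝ) ^ β q =
          C (∏ q, s q.1 ^ β q) * ∏ q, X q ^ β q := by
        rw [map_prod, ← Finset.prod_mul_distrib]
        refine Finset.prod_congr rfl fun q _ => ?_
        rw [mul_pow, C_pow]
      rw [h2, ← mul_assoc, ← C_mul]
      rw [MvPolynomial.monomial_eq, Finsupp.prod_fintype _ _ (fun q => pow_zero _)]
    rw [h1, coeff_monomial, coeff_monomial]
    split_ifs with h
    · subst h
      rw [cp_prod, mul_comm]
    · rw [mul_zero]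
  | add p q hp hq => rw [map_add, coeff_add, coeff_add, hp, hq, mul_add]

/-- the coefficients of a row component -/
private theorem cp_rc {n : ℕ} (ν : Fin n → ℕ) (p : MvPolynomial (Fin n × Fin n) ℝ)
    (α : Fin n × Fin n →₀ ℕ) :
    coeff α (rc ν p) = if (fun i => ∑ j, α (i, j)) = ν then coeff α p else 0 := by
  classical
  unfold rc
  rw [coeff_sum]
  have h1 : ∀ β ∈ p.support.filter (fun β => ∀ i, ∑ j, β (i, j) = ν i),
      coeff α (monomial β (coeff β p)) = if β = α then coeff α p else 0 := by
    intro β _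
    rw [coeff_monomial]
    split_ifs with h
    · rw [h]
    · rfl
  rw [Finset.sum_congr rfl h1, Finset.sum_ite_eq']
  by_cases h : (fun i => ∑ j, α (i, j)) = ν
  · rw [if_pos h]
    split_ifs with h2
    · rfl
    · rw [Finset.mem_filter, not_and] at h2
      by_contra h3
      exact h2 (MvPolynomial.mem_support_iff.2 (Ne.symm h3)) fun i => congrFun h i
  · rw [if_neg h, if_neg]
    intro h2
    rw [Finset.mem_filter] at h2
    exact h (funext h2.2)

/-- the pairing of `D` with `p(s Y)` as a sum over row degree vectors -/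
theorem pair_rc {n : ℕ} (D p : MvPolynomial (Fin n × Fin n) ℝ) (s : Fin n → ℝ) :
    pair D (lsub (big n (Matrix.diagonal s)) p) =
      ∑ ν ∈ p.support.image (fun α => fun i => ∑ j, α (i, j)),
        (∏ i, s i ^ ν i) * pair (rc ν D) (rc ν p) := by
  classical
  have h1 : ∀ ν : Fin n → ℕ, pair (rc ν D) (rc ν p) = ∑ α ∈ D.support,
      if (fun i => ∑ j, α (i, j)) = ν then
        coeff α D * (∏ q, ((α q).factorial : ℝ)) * coeff α p else 0 := by
    intro ν
    unfold pair
    have hs : (rc ν D).support ⊆ D.support := by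
      intro α hα
      rw [MvPolynomial.mem_support_iff, cp_rc] at hα
      rw [MvPolynomial.mem_support_iff]
      intro h
      apply hα
      rw [h, ite_self]
    rw [Finset.sum_subset hs (fun α _ hα => by
      rw [notMem_support_iff.1 hα, zero_mul, zero_mul])]
    refine Finset.sum_congr rfl fun α _ => ?_
    rw [cp_rc, cp_rc]
    split_ifs
    · rfl
    · rw [mul_zero]
  have h2 : ∀ ν ∈ p.support.image (fun α => fun i => ∑ j, α (i, j)),
      (∏ i, s i ^ ν i) * pair (rc ν D) (rc ν p) = ∑ α ∈ D.support,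
        if (fun i => ∑ j, α (i, j)) = ν then
          (∏ i, s i ^ (∑ j, α (i, j))) * (coeff α D * (∏ q, ((α q).factorial : ℝ)) * coeff α p)
        else 0 := by
    intro ν _
    rw [h1, Finset.mul_sum]
    refine Finset.sum_congr rfl fun α _ => ?_
    split_ifs with h
    · rw [← h]
    · rw [mul_zero]
  rw [Finset.sum_congr rfl h2, Finset.sum_comm]
  unfold pair
  refine Finset.sum_congr rfl fun α _ => ?_
  rw [cp_coeff, Finset.sum_ite_eq]
  split_ifs with h
  · ring
  · have h3 : coeff α p = 0 := by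
      by_contra h4
      exact h (Finset.mem_image.2 ⟨α, MvPolynomial.mem_support_iff.2 h4, rfl⟩)
    rw [h3]
    ring

/-- row degree vectors which do not occur have component zero -/
theorem rc_eq_zero {n : ℕ} (ν : Fin n → ℕ) (p : MvPolynomial (Fin n × Fin n) ℝ)
    (h : ν ∉ p.support.image (fun α => fun i => ∑ j, α (i, j))) : rc ν p = 0 := by
  classical
  ext α
  rw [cp_rc, coeff_zero]
  split_ifs with h1
  · by_contra h2
    exact h (Finset.mem_image.2 ⟨α, MvPolynomial.mem_support_iff.2 h2, h1⟩)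
  · rfl

/-- a polynomial with right weight `μ` is homogeneous: its row degree vectors have sum `∑ μ i` -/
theorem row_sum {n : ℕ} (μ : Fin n → ℕ) (p : MvPolynomial (Fin n × Fin n) ℝ) (hp : BW μ p)
    (α : Fin n × Fin n →₀ ℕ) (hα : α ∈ p.support) : ∑ i, ∑ j, α (i, j) = ∑ i, μ i := by
  have h1 : lsub (big n (Matrix.diagonal fun _ : Fin n => (2 : ℝ))) p =
      C ((2 : ℝ) ^ (∑ i, μ i)) * p := by
    refine ext_evM _ _ fun Y => ?_
    have h2 : evM Y (C ((2 : ℝ) ^ (∑ i, μ i)) * p) = (2 : ℝ) ^ (∑ i, μ i) * evM Y p := by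
      unfold evM
      rw [map_mul, eval_C]
    have h3 : (Matrix.diagonal fun _ : Fin n => (2 : ℝ)) * Y =
        Y * Matrix.diagonal fun _ : Fin n => (2 : ℝ) := by
      ext i j
      rw [Matrix.diagonal_mul, Matrix.mul_diagonal, mul_comm]
    rw [evM_lsub, h2, h3, hp _ Y (fun i j hij => Matrix.diagonal_apply_ne _ (ne_of_gt hij))]
    congr 1
    rw [← Finset.prod_pow_eq_pow_sum]
    refine Finset.prod_congr rfl fun i _ => ?_
    rw [Matrix.diagonal_apply_eq]
  have h2 := congrArg (coeff α) h1
  rw [cp_coeff, coeff_C_mul] at h2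
  have h3 := mul_right_cancel₀ (MvPolynomial.mem_support_iff.1 hα) h2
  rw [Finset.prod_pow_eq_pow_sum] at h3
  have h4 : (2 : ℕ) ^ (∑ i, ∑ j, α (i, j)) = 2 ^ (∑ i, μ i) := by exact_mod_cast h3
  exact Nat.pow_right_injective le_rfl h4

end Pool.Agent.H9.IR
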