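import Pool.Agent.H9.IQ.CoreD

/-!
# Polynomials of `n` vectors (polynomials in the entries of an `n × n` matrix): definitions
-/

set_option autoImplicit false

open MvPolynomial Matrix

namespace Pool.Agent.H9.IR

open Pool.Agent.H9.IQ

/-- the value at the matrix `Y` (its columns are the vectors) -/
noncomputable def evM {n : ℕ} (Y : Matrix (Fin n) (Fin n) ℝ) (p : MvPolynomial (Fin n × Fin n) ℝ) :
    ℝ := eval (fun q => Y q.1 q.2) p

/-- right weight `μ`: `p(Y B) = ∏ B_ii^(μ i) p(Y)` for upper triangular `B` -/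
def BW {n : ℕ} (μ : Fin n → ℕ) (p : MvPolynomial (Fin n × Fin n) ℝ) : Prop :=
  ∀ (B Y : Matrix (Fin n) (Fin n) ℝ), (∀ i j, j < i → B i j = 0) →
    evM (Y * B) p = (∏ i, B i i ^ μ i) * evM Y p

/-- left weight `μ` under diagonal matrices -/
def RW {n : ℕ} (μ : Fin n → ℕ) (p : MvPolynomial (Fin n × Fin n) ℝ) : Prop :=
  ∀ (s : Fin n → ℝ) (Y : Matrix (Fin n) (Fin n) ℝ),
    evM (Matrix.diagonal s * Y) p = (∏ i, s i ^ μ i) * evM Y p

/-- left invariance under `A` -/
def LInv {n : ℕ} (A : Matrix (Fin n) (Fin n) ℝ) (p : MvPolynomial (Fin n × Fin n) ℝ) : Prop :=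
  ∀ Y : Matrix (Fin n) (Fin n) ℝ, evM (A * Y) p = evM Y p

/-- row component: the monomials with row degrees `ν` -/
noncomputable def rc {n : ℕ} (ν : Fin n → ℕ) (p : MvPolynomial (Fin n × Fin n) ℝ) :
    MvPolynomial (Fin n × Fin n) ℝ :=
  ∑ α ∈ p.support with (∀ i, ∑ j, α (i, j) = ν i), monomial α (coeff α p)

/-- `p(Y B)` as a polynomial -/
noncomputable def rmul {n : ℕ} (B : Matrix (Fin n) (Fin n) ℝ) (p : MvPolynomial (Fin n × Fin n) ℝ) :
    MvPolynomial (Fin n × Fin n) ℝ :=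
  aeval (fun q : Fin n × Fin n => ∑ k, C (B k q.2) * X (q.1, k)) p

/-- polynomials with the same values are equal -/
theorem ext_evM {n : ℕ} (p q : MvPolynomial (Fin n × Fin n) ℝ) (h : ∀ Y, evM Y p = evM Y q) :
    p = q :=
  MvPolynomial.funext fun x => h (Matrix.of fun i j => x (i, j))

theorem evM_flat {n : ℕ} (v : Fin n → Fin n → ℝ) (p : MvPolynomial (Fin n × Fin n) ℝ) :
    eval (flat v) p = evM (Matrix.of fun i j => v j i) p := rfl

theorem evM_rmul {n : ℕ} (B Y : Matrix (Fin n) (Fin n) ℝ) (p : MvPolynomial (Fin n × Fin n) ℝ) :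
    evM Y (rmul B p) = evM (Y * B) p := by
  unfold evM rmul
  rw [aeval_def, eval₂_eq', MvPolynomial.eval_eq' (fun q => (Y * B) q.1 q.2) p, map_sum]
  refine Finset.sum_congr rfl fun d _ => ?_
  rw [map_mul, map_prod, MvPolynomial.algebraMap_eq, eval_C]
  congr 1
  refine Finset.prod_congr rfl fun i _ => ?_
  rw [map_pow, map_sum]
  congr 1
  rw [Matrix.mul_apply]
  refine Finset.sum_congr rfl fun j _ => ?_
  rw [map_mul, eval_C, eval_X, mul_comm]

/-- the substitution `Y ↦ A Y` -/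
theorem evM_lsub {n : ℕ} (A Y : Matrix (Fin n) (Fin n) ℝ) (p : MvPolynomial (Fin n × Fin n) ℝ) :
    evM Y (lsub (big n A) p) = evM (A * Y) p := by
  have h := eval_big A p (fun j i => Y i j)
  have h1 : (flat fun j i => Y i j) = fun q : Fin n × Fin n => Y q.1 q.2 := rfl
  have h2 : (flat fun j => A *ᵥ fun i => Y i j) = fun q : Fin n × Fin n => (A * Y) q.1 q.2 := by
    funext q
    rfl
  rw [h1, h2] at h
  exact h

end Pool.Agent.H9.IR
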