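import Pool.Agent.H9.IR.Defs

/-!
# Products of relative invariants

For `0 < d < n` let `P_d` be given with weight `k_d`; `P_d` at the first `d` columns has right weight
`k_d` for `j < d` and `0` for `j ≥ d`. The determinant of the generic matrix has right weight
`(1, .., 1)` and is invariant under matrices of determinant 1. With `L = ∏ k_d` take
`Φ = det ^ (L μ (n-1)) * ∏_{0<d<n} P_d ^ (L (μ (d-1) - μ d) / k_d)`.
-/

set_option autoImplicit false

open MvPolynomial Matrix

namespace Pool.Agent.H9.IR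

open Pool.Agent.H9.IQ

private theorem BW.mul {n : ℕ} {μ ν : Fin n → ℕ} {p q : MvPolynomial (Fin n × Fin n) ℝ}
    (hp : BW μ p) (hq : BW ν q) : BW (fun i => μ i + ν i) (p * q) := by
  intro B Y hB
  have h1 := hp B Y hB
  have h2 := hq B Y hB
  unfold evM at *
  rw [map_mul, map_mul, h1, h2]
  simp only [pow_add, Finset.prod_mul_distrib]
  ring

private theorem BW.pow {n : ℕ} {μ : Fin n → ℕ} {p : MvPolynomial (Fin n × Fin n) ℝ}
    (hp : BW μ p) (k : ℕ) : BW (fun i => μ i * k) (p ^ k) := by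
  intro B Y hB
  have h1 := hp B Y hB
  unfold evM at *
  rw [map_pow, map_pow, h1, mul_pow, ← Finset.prod_pow]
  simp only [pow_mul]

private theorem BW.one {n : ℕ} : BW (fun _ : Fin n => 0) (1 : MvPolynomial (Fin n × Fin n) ℝ) := by
  intro B Y _
  unfold evM
  simp

private theorem BW.prod {n : ℕ} (s : Finset ℕ) (μ : ℕ → Fin n → ℕ)
    (p : ℕ → MvPolynomial (Fin n × Fin n) ℝ) (h : ∀ d ∈ s, BW (μ d) (p d)) :
    BW (fun i => ∑ d ∈ s, μ d i) (∏ d ∈ s, p d) := by
  classical
  induction s using Finset.induction_on with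
  | empty =>
    simp only [Finset.sum_empty, Finset.prod_empty]
    exact BW.one
  | insert a s ha ih =>
    simp only [Finset.sum_insert ha, Finset.prod_insert ha]
    exact (h a (Finset.mem_insert_self a s)).mul
      (ih fun d hd => h d (Finset.mem_insert_of_mem hd))

private theorem LInv.mul {n : ℕ} {A : Matrix (Fin n) (Fin n) ℝ}
    {p q : MvPolynomial (Fin n × Fin n) ℝ} (hp : LInv A p) (hq : LInv A q) : LInv A (p * q) := by
  intro Y
  have h1 := hp Y
  have h2 := hq Y
  unfold evM at *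
  rw [map_mul, map_mul, h1, h2]

private theorem LInv.pow {n : ℕ} {A : Matrix (Fin n) (Fin n) ℝ}
    {p : MvPolynomial (Fin n × Fin n) ℝ} (hp : LInv A p) (k : ℕ) : LInv A (p ^ k) := by
  intro Y
  have h1 := hp Y
  unfold evM at *
  rw [map_pow, map_pow, h1]

private theorem LInv.prod {n : ℕ} {A : Matrix (Fin n) (Fin n) ℝ} (s : Finset ℕ)
    (p : ℕ → MvPolynomial (Fin n × Fin n) ℝ) (h : ∀ d ∈ s, LInv A (p d)) :
    LInv A (∏ d ∈ s, p d) := by
  classical
  induction s using Finset.induction_on with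
  | empty =>
    intro Y
    unfold evM
    simp
  | insert a s ha ih =>
    rw [Finset.prod_insert ha]
    exact (h a (Finset.mem_insert_self a s)).mul
      (ih fun d hd => h d (Finset.mem_insert_of_mem hd))

/-- the generic determinant -/
private noncomputable def gdet (n : ℕ) : MvPolynomial (Fin n × Fin n) ℝ :=
  Matrix.det (Matrix.mvPolynomialX (Fin n) (Fin n) ℝ)

private theorem evM_gdet {n : ℕ} (Y : Matrix (Fin n) (Fin n) ℝ) : evM Y (gdet n) = Y.det := by
  unfold evM gdet
  rw [RingHom.map_det]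
  congr 1
  ext i j
  simp [Matrix.mvPolynomialX]

private theorem det_upper {n : ℕ} (B : Matrix (Fin n) (Fin n) ℝ) (hB : ∀ i j, j < i → B i j = 0) :
    B.det = ∏ i, B i i :=
  Matrix.det_of_isUpperTriangular fun i j hij => hB i j hij

private theorem BW_gdet {n : ℕ} : BW (fun _ : Fin n => 1) (gdet n) := by
  intro B Y hB
  rw [evM_gdet, evM_gdet, Matrix.det_mul, det_upper B hB]
  simp only [pow_one]
  ring

/-- a polynomial of `d` vectors at the first `d` columns -/
private noncomputable def fst {n d : ℕ} (hd : d ≤ n) (P : MvPolynomial (Fin n × Fin d) ℝ) :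
    MvPolynomial (Fin n × Fin n) ℝ := rename (fun q => (q.1, Fin.castLE hd q.2)) P

private theorem evM_fst {n d : ℕ} (hd : d ≤ n) (P : MvPolynomial (Fin n × Fin d) ℝ)
    (Y : Matrix (Fin n) (Fin n) ℝ) :
    evM Y (fst hd P) = eval (flat fun (j : Fin d) (i : Fin n) => Y i (Fin.castLE hd j)) P := by
  unfold evM fst
  rw [eval_rename]
  rfl

private theorem BW_fst {n d k : ℕ} (hd : d ≤ n) (P : MvPolynomial (Fin n × Fin d) ℝ) (hP : Wt k P) :
    BW (fun i : Fin n => if (i : ℕ) < d then k else 0) (fst hd P) := by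
  intro B Y hB
  rw [evM_fst, evM_fst]
  let B' : Matrix (Fin d) (Fin d) ℝ := Matrix.of fun l j => B (Fin.castLE hd l) (Fin.castLE hd j)
  let e : Fin d ≃ {i : Fin n // (i : ℕ) < d} :=
    { toFun := fun j => ⟨Fin.castLE hd j, j.2⟩
      invFun := fun i => ⟨i.1, i.2⟩
      left_inv := fun j => rfl
      right_inv := fun i => rfl }
  have hsum : ∀ g : Fin n → ℝ, (∀ i : Fin n, ¬ (i : ℕ) < d → g i = 0) →
      ∑ i, g i = ∑ l : Fin d, g (Fin.castLE hd l) := by
    intro g hg
    have h1 : ∑ i, g i = ∑ i ∈ Finset.univ.filter (fun i : Fin n => (i : ℕ) < d), g i := by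
      symm
      apply Finset.sum_subset (Finset.filter_subset _ _)
      intro i _ hi
      rw [Finset.mem_filter] at hi
      exact hg i fun h => hi ⟨Finset.mem_univ _, h⟩
    rw [h1, Finset.sum_subtype (p := fun i : Fin n => (i : ℕ) < d) _ (fun i => by simp)]
    exact (Equiv.sum_comp e fun i => g i.1).symm
  have hcol : (fun (j : Fin d) (i : Fin n) => (Y * B) i (Fin.castLE hd j)) =
      fun j => ∑ l, B' l j • fun (i : Fin n) => Y i (Fin.castLE hd l) := by
    funext j i
    rw [Matrix.mul_apply, Finset.sum_apply, hsum]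
    · refine Finset.sum_congr rfl fun l _ => ?_
      rw [Pi.smul_apply, smul_eq_mul, mul_comm]
      rfl
    · intro a ha
      have : B a (Fin.castLE hd j) = 0 := by
        apply hB
        rw [Fin.lt_def]
        have := j.2
        simp only [Fin.val_castLE]
        omega
      rw [this, mul_zero]
  rw [hcol, hP B']
  congr 1
  have hB' : B'.det = ∏ j, B' j j := det_upper B' fun i j hij => hB _ _ (by
    rw [Fin.lt_def] at hij ⊢
    exact hij)
  rw [hB', ← Finset.prod_pow]
  have h2 : ∏ i : Fin n, B i i ^ (if (i : ℕ) < d then k else 0) =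
      ∏ i ∈ Finset.univ.filter (fun i : Fin n => (i : ℕ) < d), B i i ^ k := by
    rw [Finset.prod_filter]
    refine Finset.prod_congr rfl fun i _ => ?_
    split_ifs
    · rfl
    · rw [pow_zero]
  rw [h2, Finset.prod_subtype (p := fun i : Fin n => (i : ℕ) < d) _ (fun i => by simp)]
  exact (Equiv.prod_comp e fun i => B i.1 i.1 ^ k)

private theorem fst_ne {n d : ℕ} (hd : d ≤ n) (P : MvPolynomial (Fin n × Fin d) ℝ) (hP : P ≠ 0) :
    fst hd P ≠ 0 := by
  intro h
  apply hP
  have hinj : Function.Injective (fun q : Fin n × Fin d => (q.1, Fin.castLE hd q.2)) := by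
    rintro ⟨a, b⟩ ⟨c, e⟩ h
    simp only [Prod.mk.injEq, Fin.castLE_inj] at h
    rw [h.1, h.2]
  exact rename_injective _ hinj (by rw [map_zero]; exact h)

theorem exists_phi {n : ℕ} (S : Set (Matrix (Fin n) (Fin n) ℝ)) (hS : ∀ A ∈ S, A.det = 1)
    (hP : ∀ d : ℕ, 0 < d → d < n → ∃ (k : ℕ) (P : MvPolynomial (Fin n × Fin d) ℝ),
      0 < k ∧ P ≠ 0 ∧ Wt k P ∧ ∀ A ∈ S, ∀ v : Fin d → Fin n → ℝ,
        eval (flat fun j => A *ᵥ v j) P = eval (flat v) P)
    (μ : Fin n → ℕ) (hμ : Antitone μ) :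
    ∃ (L : ℕ) (Φ : MvPolynomial (Fin n × Fin n) ℝ), 0 < L ∧ Φ ≠ 0 ∧
      BW (fun i => L * μ i) Φ ∧ ∀ A ∈ S, LInv A Φ := by
  classical
  have key : ∀ d : ℕ, ∃ (k : ℕ) (Q : MvPolynomial (Fin n × Fin n) ℝ), 0 < k ∧
      (0 < d → d < n → Q ≠ 0 ∧ BW (fun i : Fin n => if (i : ℕ) < d then k else 0) Q ∧
        ∀ A ∈ S, LInv A Q) := by
    intro d
    by_cases h : 0 < d ∧ d < n
    · obtain ⟨k, P, hk, hP0, hPw, hPi⟩ := hP d h.1 h.2
      refine ⟨k, fst h.2.le P, hk, fun _ _ => ⟨fst_ne _ _ hP0, BW_fst _ _ hPw, fun A hA Y => ?_⟩⟩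
      rw [evM_fst, evM_fst]
      exact hPi A hA _
    · exact ⟨1, 0, one_pos, fun h1 h2 => absurd ⟨h1, h2⟩ h⟩
  choose K Q hK hQ using key
  let M : ℕ → ℕ := fun d => if h : d < n then μ ⟨d, h⟩ else 0
  have hM : ∀ d, M (d + 1) ≤ M d := by
    intro d
    show (if h : d + 1 < n then μ ⟨d + 1, h⟩ else 0) ≤ if h : d < n then μ ⟨d, h⟩ else 0
    by_cases h : d + 1 < n
    · rw [dif_pos h, dif_pos (by omega)]
      exact hμ (by rw [Fin.le_def]; simp)
    · rw [dif_neg h]
      exact Nat.zero_le _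
  set L := ∏ d ∈ Finset.range n, K d with hL
  have hL0 : 0 < L := Finset.prod_pos fun d _ => hK d
  have hKL : ∀ d, d < n → K d ∣ L := fun d hd => Finset.dvd_prod_of_mem K (Finset.mem_range.2 hd)
  refine ⟨L, gdet n ^ (L * M (n - 1)) *
    ∏ d ∈ Finset.Ioo 0 n, Q d ^ (L * (M (d - 1) - M d) / K d), hL0, ?_, ?_, ?_⟩
  · refine mul_ne_zero (pow_ne_zero _ (Matrix.det_mvPolynomialX_ne_zero (Fin n) ℝ)) ?_
    refine Finset.prod_ne_zero_iff.2 fun d hd => pow_ne_zero _ ?_
    rw [Finset.mem_Ioo] at hd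
    exact (hQ d hd.1 hd.2).1
  · have h1 := (BW_gdet (n := n)).pow (L * M (n - 1))
    have h2 := BW.prod (Finset.Ioo 0 n)
      (fun d (i : Fin n) => (if (i : ℕ) < d then K d else 0) * (L * (M (d - 1) - M d) / K d))
      (fun d => Q d ^ (L * (M (d - 1) - M d) / K d)) (fun d hd => by
        rw [Finset.mem_Ioo] at hd
        exact (hQ d hd.1 hd.2).2.1.pow _)
    have h3 := h1.mul h2
    have h4 : (fun i : Fin n => 1 * (L * M (n - 1)) + ∑ d ∈ Finset.Ioo 0 n,
        (if (i : ℕ) < d then K d else 0) * (L * (M (d - 1) - M d) / K d)) =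
        fun i => L * μ i := by
      funext i
      have h5 : ∀ d ∈ Finset.Ioo 0 n,
          (if (i : ℕ) < d then K d else 0) * (L * (M (d - 1) - M d) / K d) =
          if (i : ℕ) < d then L * (M (d - 1) - M d) else 0 := by
        intro d hd
        rw [Finset.mem_Ioo] at hd
        split_ifs
        · exact Nat.mul_div_cancel' (Dvd.dvd.mul_right (hKL d hd.2) _)
        · rw [zero_mul]
      rw [Finset.sum_congr rfl h5, ← Finset.sum_filter]
      have h6 : (Finset.Ioo 0 n).filter (fun d => (i : ℕ) < d) = Finset.Ioo (i : ℕ) n := by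
        ext d
        rw [Finset.mem_filter, Finset.mem_Ioo, Finset.mem_Ioo]
        omega
      rw [h6, ← Finset.mul_sum]
      have h7 : ∀ m, (i : ℕ) ≤ m → M m + ∑ d ∈ Finset.Ioo (i : ℕ) (m + 1), (M (d - 1) - M d) =
          M i := by
        intro m hm
        induction m, hm using Nat.le_induction with
        | base =>
          have : Finset.Ioo (i : ℕ) ((i : ℕ) + 1) = ∅ := by
            ext d
            rw [Finset.mem_Ioo]
            simp
          rw [this, Finset.sum_empty, add_zero]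
        | succ m hm ih =>
          have h8 : Finset.Ioo (i : ℕ) (m + 1 + 1) = insert (m + 1) (Finset.Ioo (i : ℕ) (m + 1)) := by
            ext d
            rw [Finset.mem_insert, Finset.mem_Ioo, Finset.mem_Ioo]
            omega
          rw [h8, Finset.sum_insert (by rw [Finset.mem_Ioo]; omega), Nat.add_sub_cancel]
          have h9 := hM m
          omega
      have h10 := h7 (n - 1) (by have := i.2; omega)
      have h11 : n - 1 + 1 = n := by have := i.2; omega
      rw [h11] at h10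
      have h12 : M i = μ i := by
        show (if h : (i : ℕ) < n then μ ⟨i, h⟩ else 0) = μ i
        rw [dif_pos i.2]
      rw [one_mul, ← mul_add, h10, h12]
    rw [← h4]
    exact h3
  · intro A hA
    refine LInv.mul (LInv.pow (fun Y => ?_) _) (LInv.prod _ _ fun d hd => ?_)
    · rw [evM_gdet, evM_gdet, Matrix.det_mul, hS A hA, one_mul]
    · rw [Finset.mem_Ioo] at hd
      exact ((hQ d hd.1 hd.2).2.2 A hA).pow _

end Pool.Agent.H9.IR
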