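import Mathlib

/-!
# Products `L B` (lower unitriangular times upper triangular) are dense

Proof. Induction on `n` (size `n + 1`, blocks with `Fin.cons` or `Matrix.fromBlocks` and
`finSumFinEquiv`): if `a = X 0 0 ≠ 0`, row `r`, column `c`, rest `D`, then `D - c r / a` is a limit of
products `L' B'`, and `(1, 0; c / a, L') (a, r; 0, B')` has the rest `L' B' + c r / a`; so `X` is a limit
of products. The matrices with `X 0 0 ≠ 0` are dense.
-/

set_option autoImplicit false

open Matrix

namespace Pool.Agent.H9.IR

/-- the matrix with the corner `a`, first row `r`, first column `c` and rest `D` -/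
private def blk {n : ℕ} (a : ℝ) (r c : Fin n → ℝ) (D : Matrix (Fin n) (Fin n) ℝ) :
    Matrix (Fin (n + 1)) (Fin (n + 1)) ℝ :=
  fun i j => Fin.cases (Fin.cases a r j) (fun i' => Fin.cases (c i') (D i') j) i

private theorem blk_zero_zero {n : ℕ} (a : ℝ) (r c : Fin n → ℝ) (D : Matrix (Fin n) (Fin n) ℝ) :
    blk a r c D 0 0 = a := rfl

private theorem blk_zero_succ {n : ℕ} (a : ℝ) (r c : Fin n → ℝ) (D : Matrix (Fin n) (Fin n) ℝ)
    (j : Fin n) : blk a r c D 0 j.succ = r j := rfl

private theorem blk_succ_zero {n : ℕ} (a : ℝ) (r c : Fin n → ℝ) (D : Matrix (Fin n) (Fin n) ℝ)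
    (i : Fin n) : blk a r c D i.succ 0 = c i := rfl

private theorem blk_succ_succ {n : ℕ} (a : ℝ) (r c : Fin n → ℝ) (D : Matrix (Fin n) (Fin n) ℝ)
    (i j : Fin n) : blk a r c D i.succ j.succ = D i j := rfl

private theorem blk_mul {n : ℕ} (a : ℝ) (ha : a ≠ 0) (r c : Fin n → ℝ)
    (L B : Matrix (Fin n) (Fin n) ℝ) :
    blk 1 0 (fun i => c i / a) L * blk a r 0 B =
      blk a r c (fun i j => (L * B) i j + c i * r j / a) := by
  ext i j
  rw [Matrix.mul_apply, Fin.sum_univ_succ]
  refine Fin.cases ?_ (fun i' => ?_) i
  · refine Fin.cases ?_ (fun j' => ?_) j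
    · simp only [blk_zero_zero, blk_zero_succ, blk_succ_zero, Pi.zero_apply, mul_zero,
        Finset.sum_const_zero, one_mul, add_zero]
    · simp only [blk_zero_zero, blk_zero_succ, Pi.zero_apply, zero_mul,
        Finset.sum_const_zero, one_mul, add_zero]
  · refine Fin.cases ?_ (fun j' => ?_) j
    · simp only [blk_zero_zero, blk_succ_zero, Pi.zero_apply, mul_zero,
        Finset.sum_const_zero, add_zero]
      rw [div_mul_cancel₀ _ ha]
    · simp only [blk_zero_succ, blk_succ_zero, blk_succ_succ, Matrix.mul_apply]
      ring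

private theorem continuous_blk {X : Type*} [TopologicalSpace X] {n : ℕ} (a : X → ℝ)
    (r c : Fin n → ℝ) (D : X → Matrix (Fin n) (Fin n) ℝ) (ha : Continuous a)
    (hD : Continuous D) : Continuous fun x => blk (a x) r c (D x) := by
  refine continuous_matrix fun i j => ?_
  refine Fin.cases ?_ (fun i' => ?_) i
  · refine Fin.cases ?_ (fun j' => ?_) j
    · exact ha
    · exact continuous_const
  · refine Fin.cases ?_ (fun j' => ?_) j
    · exact continuous_const
    · exact hD.matrix_elem i' j'

private theorem eq_blk {n : ℕ} (Y : Matrix (Fin (n + 1)) (Fin (n + 1)) ℝ) :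
    blk (Y 0 0) (fun j => Y 0 j.succ) (fun i => Y i.succ 0) (fun i j => Y i.succ j.succ) = Y := by
  ext i j
  refine Fin.cases ?_ (fun i' => ?_) i
  · refine Fin.cases ?_ (fun j' => ?_) j <;> rfl
  · refine Fin.cases ?_ (fun j' => ?_) j <;> rfl

theorem dense_lu (n : ℕ) : Dense {Y : Matrix (Fin n) (Fin n) ℝ | ∃ L B : Matrix (Fin n) (Fin n) ℝ,
    (∀ i j, i < j → L i j = 0) ∧ (∀ i, L i i = 1) ∧ (∀ i j, j < i → B i j = 0) ∧ Y = L * B} := by
  induction n with
  | zero =>
    intro X
    refine subset_closure ⟨1, X, fun i => i.elim0, fun i => i.elim0, fun i => i.elim0, ?_⟩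
    rw [Matrix.one_mul]
  | succ n ih =>
    intro X
    set S : Set (Matrix (Fin (n + 1)) (Fin (n + 1)) ℝ) :=
      {Y | ∃ L B : Matrix (Fin (n + 1)) (Fin (n + 1)) ℝ,
        (∀ i j, i < j → L i j = 0) ∧ (∀ i, L i i = 1) ∧ (∀ i j, j < i → B i j = 0) ∧ Y = L * B}
      with hS
    -- step for a nonzero corner
    have key : ∀ (a : ℝ), a ≠ 0 → ∀ (r c : Fin n → ℝ) (D : Matrix (Fin n) (Fin n) ℝ),
        blk a r c D ∈ closure S := by
      intro a ha r c D
      have hg : Continuous fun Y : Matrix (Fin n) (Fin n) ℝ =>
          blk a r c (fun i j => Y i j + c i * r j / a) := by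
        refine continuous_blk (fun _ => a) r c
          (fun Y : Matrix (Fin n) (Fin n) ℝ => (fun i j => Y i j + c i * r j / a :
            Matrix (Fin n) (Fin n) ℝ)) continuous_const ?_
        exact continuous_matrix fun i j =>
          ((continuous_id.matrix_elem i j).add continuous_const)
      have h1 := map_mem_closure hg (ih (fun i j => D i j - c i * r j / a)) (t := S) ?_
      · simpa only [sub_add_cancel] using h1
      · rintro Y ⟨L, B, h1, h2, h3, rfl⟩
        refine ⟨blk 1 0 (fun i => c i / a) L, blk a r 0 B, ?_, ?_, ?_, ?_⟩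
        · intro i j
          refine Fin.cases ?_ (fun i' => ?_) i
          · refine Fin.cases ?_ (fun j' => ?_) j
            · intro h
              exact absurd h (lt_irrefl _)
            · intro _
              rfl
          · refine Fin.cases ?_ (fun j' => ?_) j
            · intro h
              exact absurd h (Fin.not_lt_zero _)
            · intro h
              exact h1 i' j' (Fin.succ_lt_succ_iff.1 h)
        · intro i
          refine Fin.cases ?_ (fun i' => ?_) i
          · rfl
          · exact h2 i'
        · intro i j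
          refine Fin.cases ?_ (fun i' => ?_) i
          · intro h
            exact absurd h (Fin.not_lt_zero _)
          · refine Fin.cases ?_ (fun j' => ?_) j
            · intro _
              rfl
            · intro h
              exact h3 i' j' (Fin.succ_lt_succ_iff.1 h)
        · exact (blk_mul a ha r c L B).symm
    have hf : Continuous fun t : ℝ => blk t (fun j => X 0 j.succ) (fun i => X i.succ 0)
        (fun i j => X i.succ j.succ) :=
      continuous_blk _ _ _ (fun _ => (fun i j => X i.succ j.succ)) continuous_id continuous_const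
    have h2 : X 0 0 ∈ closure ({0}ᶜ : Set ℝ) := (dense_compl_singleton (0 : ℝ)) _
    have h3 := map_mem_closure hf h2 (t := closure S) (fun t ht => key t ht _ _ _)
    rw [closure_closure] at h3
    rwa [eq_blk] at h3

end Pool.Agent.H9.IR
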