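import Pool.Agent.H9.IR.Defs
import Pool.Agent.H9.IR.Lu

/-!
# A polynomial with right weight `μ` and left weight `μ` is determined by its value at `1`

Proof. Let `L` be lower unitriangular. For `t ≠ 0` let `T = diagonal (t ^ i)`. Then `T L = L_t T` with
`(L_t) i j = t ^ (i - j) L i j` (natural subtraction, `j ≤ i`), so by `RW` and `BW` (for the diagonal
matrix `T`): `evM L p = evM L_t p` for `t ≠ 0`; `t → 0`: `evM L p = evM 1 p` (polynomials are continuous).
Hence `evM (L * B) p = (∏ B i i ^ μ i) * evM 1 p` for upper triangular `B`, so both sides of the claim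
agree on the dense set of `dense_lu`, and they are continuous in `Y`; `ext_evM`.
-/

set_option autoImplicit false

open MvPolynomial Matrix

namespace Pool.Agent.H9.IR

theorem evM_cont {n : ℕ} (p : MvPolynomial (Fin n × Fin n) ℝ) :
    Continuous fun Y : Matrix (Fin n) (Fin n) ℝ => evM Y p := by
  unfold evM
  exact (MvPolynomial.continuous_eval p).comp
    (continuous_pi fun q => (continuous_id.matrix_elem q.1 q.2))

/-- the scaled lower triangular matrix -/
private def lt {n : ℕ} (L : Matrix (Fin n) (Fin n) ℝ) (t : ℝ) : Matrix (Fin n) (Fin n) ℝ :=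
  fun i j => t ^ ((i : ℕ) - (j : ℕ)) * L i j

private theorem lt_mul {n : ℕ} (L : Matrix (Fin n) (Fin n) ℝ) (hL : ∀ i j, i < j → L i j = 0) (t : ℝ) :
    lt L t * Matrix.diagonal (fun i : Fin n => t ^ (i : ℕ)) =
      Matrix.diagonal (fun i : Fin n => t ^ (i : ℕ)) * L := by
  ext i j
  rw [Matrix.mul_diagonal, Matrix.diagonal_mul]
  unfold lt
  rcases lt_or_ge i j with h | h
  · rw [hL i j h]
    ring
  · have h' : (j : ℕ) ≤ (i : ℕ) := h
    calc t ^ ((i : ℕ) - (j : ℕ)) * L i j * t ^ (j : ℕ) = t ^ ((i : ℕ) - (j : ℕ)) * t ^ (j : ℕ) * L i j := by ring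
      _ = t ^ (i : ℕ) * L i j := by rw [← pow_add, Nat.sub_add_cancel h']

private theorem lt_zero {n : ℕ} (L : Matrix (Fin n) (Fin n) ℝ) (hL : ∀ i j, i < j → L i j = 0)
    (hL1 : ∀ i, L i i = 1) : lt L 0 = 1 := by
  ext i j
  unfold lt
  rcases lt_trichotomy i j with h | h | h
  · rw [hL i j h, mul_zero, Matrix.one_apply_ne h.ne]
  · subst h
    rw [Nat.sub_self, pow_zero, one_mul, hL1, Matrix.one_apply_eq]
  · have h' : (j : ℕ) < (i : ℕ) := h
    rw [zero_pow (by omega), zero_mul, Matrix.one_apply_ne h.ne']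

private theorem evM_low {n : ℕ} (μ : Fin n → ℕ) (p : MvPolynomial (Fin n × Fin n) ℝ)
    (hp : BW μ p) (hp' : RW μ p) (L : Matrix (Fin n) (Fin n) ℝ) (hL : ∀ i j, i < j → L i j = 0)
    (hL1 : ∀ i, L i i = 1) : evM L p = evM 1 p := by
  have hc : Continuous fun t : ℝ => evM (lt L t) p := by
    refine (evM_cont p).comp (continuous_matrix fun i j => ?_)
    unfold lt
    exact (continuous_id.pow _).mul continuous_const
  have heq : (fun _ : ℝ => evM L p) = fun t : ℝ => evM (lt L t) p := by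
    refine Continuous.ext_on (dense_compl_singleton (0 : ℝ)) continuous_const hc ?_
    intro t ht
    have ht0 : t ≠ 0 := ht
    change evM L p = evM (lt L t) p
    have h1 := hp (Matrix.diagonal (fun i : Fin n => t ^ (i : ℕ))) (lt L t) (by
      intro i j hij
      exact Matrix.diagonal_apply_ne _ hij.ne')
    rw [lt_mul L hL t, hp' (fun i : Fin n => t ^ (i : ℕ)) L] at h1
    simp only [Matrix.diagonal_apply_eq] at h1
    have h2 : (∏ i : Fin n, (t ^ (i : ℕ)) ^ μ i) ≠ 0 :=
      Finset.prod_ne_zero_iff.2 fun i _ => pow_ne_zero _ (pow_ne_zero _ ht0)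
    exact mul_left_cancel₀ h2 h1
  have h0 := congrFun heq 0
  change evM L p = evM (lt L 0) p at h0
  rwa [lt_zero L hL hL1] at h0

theorem prop_of_weights {n : ℕ} (μ : Fin n → ℕ) (p q : MvPolynomial (Fin n × Fin n) ℝ)
    (hp : BW μ p) (hq : BW μ q) (hp' : RW μ p) (hq' : RW μ q) :
    C (evM 1 q) * p = C (evM 1 p) * q := by
  apply ext_evM
  have heq : (fun Y : Matrix (Fin n) (Fin n) ℝ => evM Y (C (evM 1 q) * p)) =
      fun Y => evM Y (C (evM 1 p) * q) := by
    refine Continuous.ext_on (dense_lu n) (evM_cont _) (evM_cont _) ?_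
    rintro Y ⟨L, B, hL, hL1, hB, rfl⟩
    change evM (L * B) (C (evM 1 q) * p) = evM (L * B) (C (evM 1 p) * q)
    have hC : ∀ (a : ℝ) (r : MvPolynomial (Fin n × Fin n) ℝ), evM (L * B) (C a * r) = a * evM (L * B) r := by
      intro a r
      unfold evM
      rw [map_mul, eval_C]
    rw [hC, hC, hp B L hB, hq B L hB, evM_low μ p hp hp' L hL hL1, evM_low μ q hq hq' L hL hL1]
    ring
  intro Y
  exact congrFun heq Y

end Pool.Agent.H9.IR
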