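import Pool.Agent.H9.IR.Defs

/-!
# Invariance under transvections and weights give the formula for triangular and for all matrices
-/

set_option autoImplicit false

open MvPolynomial Matrix

namespace Pool.Agent.H9.IR.B

/-- column `m` of the identity replaced by the column `m` of `B` -/
noncomputable def colm {n : ℕ} (B : Matrix (Fin n) (Fin n) ℝ) (m : Fin n) : Matrix (Fin n) (Fin n) ℝ :=
  Matrix.updateCol 1 m (fun i => B i m)

theorem inv_sum {n : ℕ} (p : MvPolynomial (Fin n × Fin n) ℝ) (m : Fin n)
    (hT : ∀ i, i < m → ∀ (s : ℝ) (Y : Matrix (Fin n) (Fin n) ℝ), evM (Y * transvection i m s) p = evM Y p)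
    (c : Fin n → ℝ) (S : Finset (Fin n)) (hS : ∀ i ∈ S, i < m) (Y : Matrix (Fin n) (Fin n) ℝ) :
    evM (Y * (1 + ∑ i ∈ S, Matrix.single i m (c i))) p = evM Y p := by
  classical
  induction S using Finset.induction_on generalizing Y with
  | empty => simp
  | insert a S ha ih =>
    have hS' : ∀ i ∈ S, i < m := fun i hi => hS i (Finset.mem_insert_of_mem hi)
    have ham : a < m := hS a (Finset.mem_insert_self _ _)
    have h1 : (1 + ∑ i ∈ insert a S, Matrix.single i m (c i) : Matrix (Fin n) (Fin n) ℝ) =
        transvection a m (c a) * (1 + ∑ i ∈ S, Matrix.single i m (c i)) := by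
      rw [Finset.sum_insert ha]
      unfold transvection
      rw [add_mul, one_mul, mul_add, mul_one, Finset.mul_sum]
      have h2 : ∑ i ∈ S, Matrix.single a m (c a) * Matrix.single i m (c i) =
          (0 : Matrix (Fin n) (Fin n) ℝ) := by
        refine Finset.sum_eq_zero fun i hi => ?_
        exact Matrix.single_mul_single_of_ne _ _ _ _ (ne_of_gt (hS' i hi)) _
      rw [h2]
      abel
    rw [h1, ← Matrix.mul_assoc, ih hS', hT a ham]

theorem colm_eq {n : ℕ} (B : Matrix (Fin n) (Fin n) ℝ) (hB : ∀ i j, j < i → B i j = 0) (m : Fin n) :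
    colm B m = Matrix.diagonal (fun i => if i = m then B m m else 1) *
      (1 + ∑ i ∈ Finset.univ.filter (fun i => i < m), Matrix.single i m (B i m)) := by
  classical
  ext a b
  rw [Matrix.diagonal_mul, Matrix.add_apply, Matrix.sum_apply]
  unfold colm
  by_cases hb : b = m
  · subst hb
    rw [Matrix.updateCol_self]
    have h1 : ∑ i ∈ Finset.univ.filter (fun i => i < b), Matrix.single i b (B i b) a b =
        if a < b then B a b else 0 := by
      split_ifs with h
      · rw [Finset.sum_eq_single a]
        · simp
        · intro i _ hi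
          rw [Matrix.single_apply_of_row_ne hi]
        · intro hn
          exact absurd (by simpa using h) hn
      · refine Finset.sum_eq_zero fun i hi => ?_
        have : i ≠ a := by
          rintro rfl
          exact h (Finset.mem_filter.1 hi).2
        rw [Matrix.single_apply_of_row_ne this]
    rw [h1]
    rcases lt_trichotomy a b with h | h | h
    · rw [if_neg (ne_of_lt h), if_pos h, Matrix.one_apply_ne (ne_of_lt h)]
      ring
    · subst h
      rw [if_pos rfl, if_neg (lt_irrefl _), Matrix.one_apply_eq]
      ring
    · rw [if_neg (ne_of_gt h), if_neg (not_lt.2 h.le), Matrix.one_apply_ne (ne_of_gt h), hB a b h]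
      ring
  · rw [Matrix.updateCol_ne hb]
    have h1 : ∑ i ∈ Finset.univ.filter (fun i => i < m), Matrix.single i m (B i m) a b = 0 := by
      refine Finset.sum_eq_zero fun i _ => ?_
      rw [Matrix.single_apply_of_col_ne _ _ (Ne.symm hb)]
    rw [h1, add_zero]
    by_cases ha : a = m
    · subst ha
      rw [Matrix.one_apply_ne (Ne.symm hb)]
      ring
    · rw [if_neg ha, one_mul]

theorem evM_colm {n : ℕ} (κ : Fin n → ℕ) (p : MvPolynomial (Fin n × Fin n) ℝ)
    (hD : ∀ (b : Fin n → ℝ) (Y : Matrix (Fin n) (Fin n) ℝ),
      evM (Y * Matrix.diagonal b) p = (∏ i, b i ^ κ i) * evM Y p)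
    (hT : ∀ i j, i < j → ∀ (s : ℝ) (Y : Matrix (Fin n) (Fin n) ℝ),
      evM (Y * transvection i j s) p = evM Y p)
    (B : Matrix (Fin n) (Fin n) ℝ) (hB : ∀ i j, j < i → B i j = 0) (m : Fin n)
    (Y : Matrix (Fin n) (Fin n) ℝ) :
    evM (Y * colm B m) p = B m m ^ κ m * evM Y p := by
  classical
  rw [colm_eq B hB m, ← Matrix.mul_assoc, inv_sum p m (fun i hi s Y => hT i m hi s Y) (fun i => B i m) _
    (fun i hi => (Finset.mem_filter.1 hi).2), hD]
  congr 1
  rw [Finset.prod_eq_single m]
  · simp
  · intro i _ hi
    simp [hi]
  · intro h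
    exact absurd (Finset.mem_univ _) h

/-- weights and invariance under upper transvections give the formula for upper triangular matrices -/
theorem bw_of {n : ℕ} (κ : Fin n → ℕ) (p : MvPolynomial (Fin n × Fin n) ℝ)
    (hD : ∀ (b : Fin n → ℝ) (Y : Matrix (Fin n) (Fin n) ℝ),
      evM (Y * Matrix.diagonal b) p = (∏ i, b i ^ κ i) * evM Y p)
    (hT : ∀ i j, i < j → ∀ (s : ℝ) (Y : Matrix (Fin n) (Fin n) ℝ),
      evM (Y * transvection i j s) p = evM Y p) : BW κ p := by
  classical
  have key : ∀ m : ℕ, m ≤ n → ∀ (B Y : Matrix (Fin n) (Fin n) ℝ), (∀ i j, j < i → B i j = 0) →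
      (∀ i j : Fin n, m ≤ (j : ℕ) → B i j = (1 : Matrix (Fin n) (Fin n) ℝ) i j) →
      evM (Y * B) p = (∏ i, B i i ^ κ i) * evM Y p := by
    intro m
    induction m with
    | zero =>
      intro _ B Y _ h1
      have hB1 : B = 1 := by
        ext i j
        exact h1 i j (Nat.zero_le _)
      rw [hB1, Matrix.mul_one]
      simp
    | succ m ih =>
      intro hm B Y hB h1
      let t : Fin n := ⟨m, hm⟩
      let B' : Matrix (Fin n) (Fin n) ℝ := Matrix.updateCol B t (fun i => (1 : Matrix (Fin n) (Fin n) ℝ) i t)
      have hB' : ∀ i j, j < i → B' i j = 0 := by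
        intro i j hij
        by_cases hj : j = t
        · subst hj
          show Matrix.updateCol B t _ i t = 0
          rw [Matrix.updateCol_self]
          exact Matrix.one_apply_ne (ne_of_gt hij)
        · show Matrix.updateCol B t _ i j = 0
          rw [Matrix.updateCol_ne hj]
          exact hB i j hij
      have h1' : ∀ i j : Fin n, m ≤ (j : ℕ) → B' i j = (1 : Matrix (Fin n) (Fin n) ℝ) i j := by
        intro i j hj
        by_cases hjt : j = t
        · subst hjt
          show Matrix.updateCol B t _ i t = _
          rw [Matrix.updateCol_self]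
        · show Matrix.updateCol B t _ i j = _
          rw [Matrix.updateCol_ne hjt]
          apply h1
          have : (j : ℕ) ≠ m := fun h => hjt (Fin.ext h)
          omega
      have hprod : B = colm B t * B' := by
        ext i j
        rw [Matrix.mul_apply]
        by_cases hjt : j = t
        · have e1 : ∀ k, B' k j = (1 : Matrix (Fin n) (Fin n) ℝ) k j := fun k => h1' k j (by rw [hjt])
          have e2 : ∑ k, colm B t i k * B' k j = ∑ k, colm B t i k * (1 : Matrix (Fin n) (Fin n) ℝ) k j :=
            Finset.sum_congr rfl fun k _ => by rw [e1]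
          rw [e2, ← Matrix.mul_apply, Matrix.mul_one]
          unfold colm
          rw [hjt, Matrix.updateCol_self]
        · have e0 : ∀ k, B' k j = B k j := fun k => by
            show Matrix.updateCol B t _ k j = _
            rw [Matrix.updateCol_ne hjt]
          by_cases hjm : m < (j : ℕ)
          · have e1 : ∀ k, B' k j = (1 : Matrix (Fin n) (Fin n) ℝ) k j := fun k => h1' k j hjm.le
            have e2 : ∑ k, colm B t i k * B' k j =
                ∑ k, colm B t i k * (1 : Matrix (Fin n) (Fin n) ℝ) k j :=
              Finset.sum_congr rfl fun k _ => by rw [e1]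
            rw [e2, ← Matrix.mul_apply, Matrix.mul_one, ← e0, e1]
            unfold colm
            rw [Matrix.updateCol_ne hjt]
          · have hjlt : (j : ℕ) < m := by
              have : (j : ℕ) ≠ m := fun h => hjt (Fin.ext h)
              omega
            have e2 : ∑ k, colm B t i k * B' k j = ∑ k, (1 : Matrix (Fin n) (Fin n) ℝ) i k * B' k j := by
              refine Finset.sum_congr rfl fun k _ => ?_
              by_cases hk : k = t
              · have : B' k j = 0 := by
                  apply hB'
                  rw [hk]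
                  exact Fin.lt_def.2 hjlt
                rw [this, mul_zero, mul_zero]
              · unfold colm
                rw [Matrix.updateCol_ne hk]
            rw [e2, ← Matrix.mul_apply, Matrix.one_mul, e0]
      have hstep : evM (Y * B) p = (∏ i, B' i i ^ κ i) * (B t t ^ κ t * evM Y p) := by
        have : Y * B = (Y * colm B t) * B' := by
          rw [Matrix.mul_assoc, ← hprod]
        rw [this, ih (by omega) B' _ hB' h1', evM_colm κ p hD hT B hB]
      rw [hstep, ← mul_assoc]
      congr 1
      rw [← Finset.mul_prod_erase Finset.univ (fun i => B i i ^ κ i) (Finset.mem_univ t),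
        ← Finset.mul_prod_erase Finset.univ (fun i => B' i i ^ κ i) (Finset.mem_univ t)]
      have e3 : B' t t = 1 := by
        show Matrix.updateCol B t _ t t = 1
        rw [Matrix.updateCol_self, Matrix.one_apply_eq]
      have e4 : ∏ i ∈ Finset.univ.erase t, B' i i ^ κ i = ∏ i ∈ Finset.univ.erase t, B i i ^ κ i := by
        refine Finset.prod_congr rfl fun i hi => ?_
        have : i ≠ t := Finset.ne_of_mem_erase hi
        have : B' i i = B i i := by
          show Matrix.updateCol B t _ i i = _
          rw [Matrix.updateCol_ne this]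
        rw [this]
      rw [e3, e4]
      ring
  intro B Y hB
  exact key n le_rfl B Y hB fun i j hj => absurd j.2 (by omega)

/-- weight `a` in every column and invariance under all transvections: a power of the determinant -/
theorem det_of {n : ℕ} (a : ℕ) (p : MvPolynomial (Fin n × Fin n) ℝ)
    (hD : ∀ (b : Fin n → ℝ) (Y : Matrix (Fin n) (Fin n) ℝ),
      evM (Y * Matrix.diagonal b) p = (∏ i, b i ^ a) * evM Y p)
    (hT : ∀ i j, i ≠ j → ∀ (s : ℝ) (Y : Matrix (Fin n) (Fin n) ℝ),
      evM (Y * transvection i j s) p = evM Y p) (Y B : Matrix (Fin n) (Fin n) ℝ) :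
    evM (Y * B) p = B.det ^ a * evM Y p := by
  classical
  have hl : ∀ (L : List (TransvectionStruct (Fin n) ℝ)) (Y : Matrix (Fin n) (Fin n) ℝ),
      evM (Y * (L.map TransvectionStruct.toMatrix).prod) p = evM Y p := by
    intro L
    induction L with
    | nil => intro Y; simp
    | cons t L ih =>
      intro Y
      rw [List.map_cons, List.prod_cons, ← Matrix.mul_assoc, ih]
      exact hT t.i t.j t.hij t.c Y
  obtain ⟨L, L', D, h⟩ := Matrix.Pivot.exists_list_transvec_mul_diagonal_mul_list_transvec B
  have hd : B.det = ∏ i, D i := by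
    rw [h, Matrix.det_mul, Matrix.det_mul, TransvectionStruct.det_toMatrix_prod,
      TransvectionStruct.det_toMatrix_prod, Matrix.det_diagonal, one_mul, mul_one]
  rw [hd, h, ← Matrix.mul_assoc, ← Matrix.mul_assoc, hl, hD, hl, Finset.prod_pow]

end Pool.Agent.H9.IR.B
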