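import Pool.Agent.H9.IR.RaA
import Pool.Agent.H9.IR.RaB

/-!
# Highest weight vectors in a space of polynomials which is stable under right multiplication

Proof. Column degree vector of a monomial `α`: `fun j => ∑ i, α (i, j)`. The column components of `p ∈ W`
lie in `W` (they are linear combinations of the `rmul (diagonal b) p`). Let `S` be the finite set of
column degree vectors `κ` such that `W` contains a nonzero polynomial with all column degrees `κ`; it is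
invariant under permutations (`rmul` of permutation matrices). Let `κ ∈ S` maximize `∑ κ j ^ 2`; sort it,
so `Antitone κ`; `p ∈ W` nonzero with column degrees `κ`. For `i < j` the polynomial
`p(Y (1 + s E_ij))` (column `j` gets `s` times column `i`) is `∑_k s^k p_k`, `p_k ∈ W` with column degrees
`κ + k (ε_i - ε_j)`, whose sum of squares is larger for `k ≥ 1` (as `κ i ≥ κ j`), so `p_k = 0`. So `p` is
invariant under upper unitriangular matrices (a product of such transvections; or: the span of the images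
of `p`), and `BW κ p`. If `κ` is not constant: first alternative. If `κ` is constant, `κ = a`, `N = n a`,
then `∑ κ' j ^ 2 ≤ n a^2` for all `κ' ∈ S`, so by Cauchy-Schwarz all `κ' ∈ S` are constant `a`; so every
`p ∈ W` has column degrees `a`, is invariant under all transvections (the same argument), and
`evM (Y * B) p = det B ^ a * evM Y p` for all `B`
(`Matrix.Pivot.exists_list_transvec_mul_diagonal_mul_list_transvec`); `Y = 1`.
-/

set_option autoImplicit false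

open MvPolynomial Matrix

namespace Pool.Agent.H9.IR

private theorem ra_shift {n : ℕ} (κ κ' : Fin n → ℕ) {i j : Fin n} (hij : i ≠ j) (hle : κ j ≤ κ i) (k : ℕ)
    (hk : 1 ≤ k) (hi : κ' i = κ i + k) (hj' : κ' j + k = κ j) (hl : ∀ l, l ≠ i → l ≠ j → κ' l = κ l) :
    ∑ l, κ l ^ 2 < ∑ l, κ' l ^ 2 := by
  classical
  have hj : j ∈ Finset.univ.erase i := Finset.mem_erase.2 ⟨hij.symm, Finset.mem_univ _⟩
  rw [← Finset.add_sum_erase Finset.univ (fun l => κ l ^ 2) (Finset.mem_univ i),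
    ← Finset.add_sum_erase (Finset.univ.erase i) (fun l => κ l ^ 2) hj,
    ← Finset.add_sum_erase Finset.univ (fun l => κ' l ^ 2) (Finset.mem_univ i),
    ← Finset.add_sum_erase (Finset.univ.erase i) (fun l => κ' l ^ 2) hj]
  have e1 : ∑ l ∈ (Finset.univ.erase i).erase j, κ' l ^ 2 =
      ∑ l ∈ (Finset.univ.erase i).erase j, κ l ^ 2 := by
    refine Finset.sum_congr rfl fun l hl' => ?_
    rw [hl l (Finset.ne_of_mem_erase (Finset.mem_of_mem_erase hl')) (Finset.ne_of_mem_erase hl')]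
  obtain ⟨u, hu⟩ : ∃ u, κ i = κ j + u := ⟨κ i - κ j, by omega⟩
  have h4 : κ i ^ 2 + κ j ^ 2 < κ' i ^ 2 + κ' j ^ 2 := by
    rw [hi, hu, ← hj']
    nlinarith [Nat.mul_le_mul hk hk, Nat.zero_le (k * u), Nat.zero_le (k * κ' j)]
  omega

private theorem ra_const {n a : ℕ} (κ : Fin n → ℕ) (hs : ∑ j, κ j = n * a) (hq : ∑ j, κ j ^ 2 ≤ n * a ^ 2) :
    ∀ j, κ j = a := by
  have h1 : ∑ j, ((κ j : ℤ) - a) ^ 2 ≤ 0 := by
    have h2 : ∀ j, ((κ j : ℤ) - a) ^ 2 = ((κ j ^ 2 : ℕ) : ℤ) - 2 * a * ((κ j : ℕ) : ℤ) + (a : ℤ) ^ 2 := by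
      intro j; push_cast; ring
    simp only [h2]
    rw [Finset.sum_add_distrib, Finset.sum_sub_distrib, ← Finset.mul_sum, ← Nat.cast_sum, ← Nat.cast_sum, hs]
    simp only [Finset.sum_const, Finset.card_univ, Fintype.card_fin, nsmul_eq_mul]
    have h3 : ((∑ j, κ j ^ 2 : ℕ) : ℤ) ≤ ((n * a ^ 2 : ℕ) : ℤ) := by exact_mod_cast hq
    push_cast at h3 ⊢
    nlinarith [h3]
  intro j
  have h4 : ∀ i ∈ Finset.univ, 0 ≤ ((κ i : ℤ) - a) ^ 2 := fun i _ => sq_nonneg _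
  have h5 := (Finset.sum_eq_zero_iff_of_nonneg h4).1 (le_antisymm h1 (Finset.sum_nonneg h4)) j
    (Finset.mem_univ j)
  have h6 : (κ j : ℤ) - a = 0 := by
    exact pow_eq_zero_iff (two_ne_zero) |>.1 h5
  omega

private theorem ra_cc {n : ℕ} (p : MvPolynomial (Fin n × Fin n) ℝ) (α : Fin n × Fin n →₀ ℕ)
    (hα : α ∈ p.support) : cc (fun j => ∑ i, α (i, j)) p ≠ 0 := by
  classical
  intro h
  have h1 : coeff α (cc (fun j => ∑ i, α (i, j)) p) = coeff α p := by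
    unfold cc
    rw [coeff_sum]
    rw [Finset.sum_eq_single α]
    · rw [coeff_monomial, if_pos rfl]
    · intro b _ hb
      rw [coeff_monomial, if_neg hb]
    · intro hn
      exact absurd (Finset.mem_filter.2 ⟨hα, fun j => rfl⟩) hn
  rw [h, coeff_zero] at h1
  exact (mem_support_iff.1 hα) h1.symm

theorem exists_hw {n N : ℕ} (W : Submodule ℝ (MvPolynomial (Fin n × Fin n) ℝ))
    (hW : ∀ p ∈ W, p.IsHomogeneous N)
    (hB : ∀ p ∈ W, ∀ B : Matrix (Fin n) (Fin n) ℝ, rmul B p ∈ W) :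
    (∃ (μ : Fin n → ℕ) (p : MvPolynomial (Fin n × Fin n) ℝ),
      p ∈ W ∧ p ≠ 0 ∧ Antitone μ ∧ (∃ i j, μ i ≠ μ j) ∧ BW μ p) ∨
    ∃ a : ℕ, ∀ p ∈ W, ∀ Y : Matrix (Fin n) (Fin n) ℝ, evM Y p = Y.det ^ a * evM 1 p := by
  classical
  by_cases hz : ∀ p ∈ W, p = 0
  · refine Or.inr ⟨0, fun p hp Y => ?_⟩
    rw [hz p hp]
    simp [evM]
  push Not at hz
  obtain ⟨p0, hp0, hp0'⟩ := hz
  let S : Set (Fin n → ℕ) := {κ | ∃ p ∈ W, p ≠ 0 ∧ CD κ p}
  have hcomp : ∀ p ∈ W, ∀ α ∈ p.support, (fun j => ∑ i, α (i, j)) ∈ S := fun p hp α hα =>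
    ⟨_, cc_mem W hB _ p hp, ra_cc p α hα, cd_cc _ _⟩
  have hSsum : ∀ κ ∈ S, ∑ j, κ j = N := by
    rintro κ ⟨p, hp, h0, hc⟩
    exact cd_sum (hW p hp) h0 hc
  have hSne : S.Nonempty := by
    obtain ⟨α, hα⟩ := (support_nonempty).2 hp0'
    exact ⟨_, hcomp p0 hp0 α hα⟩
  -- the maximum of the sum of squares
  have hbd : ∀ κ ∈ S, ∑ j, κ j ^ 2 ≤ n * N ^ 2 := by
    intro κ hκ
    have h1 : ∀ j ∈ Finset.univ, κ j ^ 2 ≤ N ^ 2 := by
      intro j _
      have : κ j ≤ ∑ j, κ j := Finset.single_le_sum (f := κ) (fun _ _ => Nat.zero_le _) (Finset.mem_univ j)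
      rw [hSsum κ hκ] at this
      exact Nat.pow_le_pow_left this 2
    have := Finset.sum_le_card_nsmul Finset.univ (fun j => κ j ^ 2) (N ^ 2) h1
    simpa using this
  obtain ⟨κ0, hκ0, hmax0⟩ : ∃ κ ∈ S, ∀ κ' ∈ S, ∑ j, κ' j ^ 2 ≤ ∑ j, κ j ^ 2 := by
    have hne : ((fun κ : Fin n → ℕ => ∑ j, κ j ^ 2) '' S).Nonempty := hSne.image _
    have hb : BddAbove ((fun κ : Fin n → ℕ => ∑ j, κ j ^ 2) '' S) := by
      refine ⟨n * N ^ 2, ?_⟩
      rintro _ ⟨κ, hκ, rfl⟩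
      exact hbd κ hκ
    obtain ⟨κ, hκ, hκe⟩ := Nat.sSup_mem hne hb
    refine ⟨κ, hκ, fun κ' hκ' => ?_⟩
    have := le_csSup hb ⟨κ', hκ', rfl⟩
    rw [← hκe] at this
    exact this
  -- sorting
  let σ : Equiv.Perm (Fin n) := Fin.revPerm.trans (Tuple.sort κ0)
  have hanti : Antitone (κ0 ∘ σ) := by
    intro i j hij
    have h1 := Tuple.monotone_sort κ0
    have h2 : Fin.rev j ≤ Fin.rev i := Fin.rev_le_rev.2 hij
    exact h1 h2
  obtain ⟨κ, hκS, hmax, hanti⟩ : ∃ κ ∈ S, (∀ κ' ∈ S, ∑ j, κ' j ^ 2 ≤ ∑ j, κ j ^ 2) ∧ Antitone κ := by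
    obtain ⟨p, hp, h0, hc⟩ := hκ0
    refine ⟨κ0 ∘ σ, cd_perm W hB κ0 p hp h0 hc σ, fun κ' hκ' => (hmax0 κ' hκ').trans (le_of_eq ?_), hanti⟩
    exact (Equiv.sum_comp σ (fun j => κ0 j ^ 2)).symm
  by_cases hconst : ∃ i j, κ i ≠ κ j
  · left
    obtain ⟨p, hp, h0, hc⟩ := hκS
    refine ⟨κ, p, hp, h0, hanti, hconst, B.bw_of κ p (cd_diag hc) fun i j hij => ?_⟩
    refine fun s Y => transv W hB κ p hp hc i j hij.ne (fun κ' k hk e1 e2 e3 q hq hcq => ?_) s Y
    by_contra hq0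
    exact absurd (hmax _ ⟨q, hq, hq0, hcq⟩)
      (not_le.2 (ra_shift κ κ' hij.ne (hanti hij.le) k hk e1 e2 e3))
  · right
    push Not at hconst
    obtain ⟨a, ha⟩ : ∃ a, ∀ i, κ i = a := by
      rcases Nat.eq_zero_or_pos n with h | h
      · subst h
        exact ⟨0, fun i => i.elim0⟩
      · exact ⟨κ ⟨0, h⟩, fun i => hconst i _⟩
    have hN : n * a = N := by
      rw [← hSsum κ hκS]
      simp [ha]
    have hall : ∀ κ' ∈ S, ∀ j, κ' j = a := by
      intro κ' hκ'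
      refine ra_const κ' (by rw [hSsum κ' hκ', hN]) ?_
      refine (hmax κ' hκ').trans (le_of_eq ?_)
      simp [ha]
    refine ⟨a, fun p hp Y => ?_⟩
    have hc : CD (fun _ => a) p := by
      intro α hα j
      exact hall _ (hcomp p hp α hα) j
    have hdet := B.det_of a p (fun b Y => cd_diag hc b Y) (fun i j hij => ?_) 1 Y
    · rwa [Matrix.one_mul] at hdet
    · refine fun s Y => transv W hB (fun _ => a) p hp hc i j hij (fun κ' k hk e1 e2 e3 q hq hcq => ?_) s Y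
      by_contra hq0
      have := hall _ ⟨q, hq, hq0, hcq⟩ i
      omega

end Pool.Agent.H9.IR
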