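import Pool.Agent.H9.IP.Main
import Pool.Agent.H9.IR.Pr
import Pool.Agent.H9.IR.Co
import Pool.Agent.H9.IR.Cp
import Pool.Agent.H9.IR.Ch
import Pool.Agent.H9.IR.Ra
import Pool.Agent.H9.IR.Ph

/-!
# Cocompact groups have the same invariants of `n` vectors as `SL(n, ℝ)`
-/

set_option autoImplicit false

open MvPolynomial Matrix Module

namespace Pool.Agent.H9.IR

open Pool.Agent.H9.IQ

/-- the pairing `⟨D, f(A ·)⟩` is a polynomial in the entries of `A` -/
theorem pair_poly {n : ℕ} (D f : MvPolynomial (Fin n × Fin n) ℝ) :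
    ∃ p : MvPolynomial (Fin n × Fin n) ℝ, ∀ A : Matrix (Fin n) (Fin n) ℝ,
      eval (fun ij => A ij.1 ij.2) p = pair D (lsub (big n A) f) := by
  classical
  let R := MvPolynomial (Fin n × Fin n) ℝ
  -- the generic matrix
  let bigX : Fin n × Fin n → Fin n × Fin n → R := fun q q' =>
    if q.2 = q'.2 then X (q.1, q'.1) else 0
  let G : MvPolynomial (Fin n × Fin n) R :=
    eval₂ ((C : R →+* MvPolynomial (Fin n × Fin n) R).comp (C : ℝ →+* R))
      (fun q => ∑ q', C (bigX q q') * X q') f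
  have hG : ∀ A : Matrix (Fin n) (Fin n) ℝ,
      map (eval (fun ij : Fin n × Fin n => A ij.1 ij.2)) G = lsub (big n A) f := by
    intro A
    show map (eval (fun ij : Fin n × Fin n => A ij.1 ij.2)) (eval₂ _ _ f) = aeval _ f
    rw [hom_eval₂, aeval_def]
    congr 1
    · refine RingHom.ext fun a => ?_
      show map (eval (fun ij : Fin n × Fin n => A ij.1 ij.2)) (C (C a)) = C a
      rw [map_C, eval_C]
    · funext q
      rw [map_sum]
      refine Finset.sum_congr rfl fun q' _ => ?_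
      rw [map_mul, map_C, map_X]
      congr 2
      show eval (fun ij : Fin n × Fin n => A ij.1 ij.2) (if q.2 = q'.2 then X (q.1, q'.1) else 0) =
        if q.2 = q'.2 then A q.1 q'.1 else 0
      split_ifs
      · rw [eval_X]
      · rw [map_zero]
  refine ⟨∑ α ∈ D.support, C (coeff α D * (∏ i, ((α i).factorial : ℝ))) * coeff α G, fun A => ?_⟩
  rw [map_sum]
  unfold pair
  refine Finset.sum_congr rfl fun α _ => ?_
  rw [map_mul, eval_C, ← hG A, coeff_map]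

private theorem hmul {n : ℕ} (A B : Matrix (Fin n) (Fin n) ℝ)
    (p : MvPolynomial (Fin n × Fin n) ℝ) :
    lsub (big n (A * B)) p = lsub (big n B) (lsub (big n A) p) :=
  ext_evM _ _ fun Y => by rw [evM_lsub, evM_lsub, evM_lsub, Matrix.mul_assoc]

private theorem hadj {n : ℕ} (A : Matrix (Fin n) (Fin n) ℝ) (p q : MvPolynomial (Fin n × Fin n) ℝ) :
    pair (lsub (big n Aᵀ) p) q = pair p (lsub (big n A) q) := by
  rw [← big_transpose]
  exact pair_lsub _ _ _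

private theorem BW_lsub {n : ℕ} {μ : Fin n → ℕ} {p : MvPolynomial (Fin n × Fin n) ℝ} (h : BW μ p)
    (A : Matrix (Fin n) (Fin n) ℝ) : BW μ (lsub (big n A) p) := by
  intro B Y hB
  rw [evM_lsub, evM_lsub, ← Matrix.mul_assoc, h B _ hB]

private theorem evM_mul {n : ℕ} (Y : Matrix (Fin n) (Fin n) ℝ)
    (p q : MvPolynomial (Fin n × Fin n) ℝ) : evM Y (p * q) = evM Y p * evM Y q := map_mul _ _ _

private theorem evM_pow {n : ℕ} (Y : Matrix (Fin n) (Fin n) ℝ)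
    (p : MvPolynomial (Fin n × Fin n) ℝ) (k : ℕ) : evM Y (p ^ k) = evM Y p ^ k := map_pow _ _ _

private theorem exists_sl {n : ℕ} (hn : 0 < n) {μ : Fin n → ℕ} {p : MvPolynomial (Fin n × Fin n) ℝ}
    (hp : BW μ p) (hp0 : p ≠ 0) :
    ∃ g : SpecialLinearGroup (Fin n) ℝ, evM (g : Matrix (Fin n) (Fin n) ℝ) p ≠ 0 := by
  classical
  have h1 : p * (Matrix.det (Matrix.mvPolynomialX (Fin n) (Fin n) ℝ)) ≠ 0 :=
    mul_ne_zero hp0 (Matrix.det_mvPolynomialX_ne_zero (Fin n) ℝ)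
  obtain ⟨Y, hY⟩ : ∃ Y : Matrix (Fin n) (Fin n) ℝ,
      evM Y (p * (Matrix.det (Matrix.mvPolynomialX (Fin n) (Fin n) ℝ))) ≠ 0 := by
    by_contra hcon
    push Not at hcon
    exact h1 (ext_evM _ _ fun Y => by rw [hcon Y]; exact (map_zero _).symm)
  have hdet : evM Y (Matrix.det (Matrix.mvPolynomialX (Fin n) (Fin n) ℝ)) = Y.det := by
    unfold evM
    rw [RingHom.map_det]
    congr 1
    ext i j
    simp [Matrix.mvPolynomialX]
  rw [evM_mul, hdet] at hY
  have hY1 : evM Y p ≠ 0 := left_ne_zero_of_mul hY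
  have hY2 : Y.det ≠ 0 := right_ne_zero_of_mul hY
  set i₀ : Fin n := ⟨0, hn⟩ with hi₀
  let b : Fin n → ℝ := fun i => if i = i₀ then (Y.det)⁻¹ else 1
  have hb : ∀ i, b i ≠ 0 := by
    intro i
    show (if i = i₀ then (Y.det)⁻¹ else 1) ≠ 0
    split_ifs
    · exact inv_ne_zero hY2
    · exact one_ne_zero
  have hbd : (Y * Matrix.diagonal b).det = 1 := by
    rw [Matrix.det_mul, Matrix.det_diagonal]
    have : ∏ i, b i = (Y.det)⁻¹ := by
      show ∏ i, (if i = i₀ then (Y.det)⁻¹ else 1) = _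
      rw [Finset.prod_ite_eq' Finset.univ i₀, if_pos (Finset.mem_univ _)]
    rw [this, mul_inv_cancel₀ hY2]
  refine ⟨⟨Y * Matrix.diagonal b, hbd⟩, ?_⟩
  show evM (Y * Matrix.diagonal b) p ≠ 0
  rw [hp (Matrix.diagonal b) Y fun i j hij => Matrix.diagonal_apply_ne _ (ne_of_gt hij)]
  refine mul_ne_zero (Finset.prod_ne_zero_iff.2 fun i _ => ?_) hY1
  rw [Matrix.diagonal_apply_eq]
  exact pow_ne_zero _ (hb i)

private theorem pair_self_ne {n : ℕ} (q : MvPolynomial (Fin n × Fin n) ℝ) (hq : q ≠ 0) :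
    pair q q ≠ 0 := by
  have h1 : 0 < pair q q := by
    unfold pair
    apply Finset.sum_pos
    · intro α hα
      have h2 : coeff α q ≠ 0 := MvPolynomial.mem_support_iff.1 hα
      have h3 : (0 : ℝ) < ∏ i, ((α i).factorial : ℝ) :=
        Finset.prod_pos fun i _ => by exact_mod_cast Nat.factorial_pos _
      have h4 : coeff α q * (∏ i, ((α i).factorial : ℝ)) * coeff α q =
          (∏ i, ((α i).factorial : ℝ)) * coeff α q ^ 2 := by ring
      rw [h4]
      positivity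
    · rwa [MvPolynomial.support_nonempty]
  exact h1.ne'

theorem core_flag {n : ℕ} (H Γ : Subgroup (SpecialLinearGroup (Fin n) ℝ))
    (hc : ∃ C : Set (SpecialLinearGroup (Fin n) ℝ), IsCompact C ∧
      ∀ g, ∃ γ ∈ Γ, ∃ h ∈ H, γ * g * h ∈ C)
    (μ : Fin n → ℕ) (hμ : ∃ i j, μ i ≠ μ j)
    (D f : MvPolynomial (Fin n × Fin n) ℝ) (hD : BW μ D) (hf : BW μ f) (hD0 : D ≠ 0)
    (hDi : ∀ h ∈ H, LInv (h : Matrix (Fin n) (Fin n) ℝ)ᵀ D)
    (hfi : ∀ γ ∈ Γ, LInv (γ : Matrix (Fin n) (Fin n) ℝ) f) : f = 0 := by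
  classical
  by_contra hf0
  have hn : 0 < n := by
    obtain ⟨i, _⟩ := hμ
    exact i.pos
  have hDs : ∀ h ∈ H, lsub (big n (h : Matrix (Fin n) (Fin n) ℝ)ᵀ) D = D := fun h hh =>
    ext_evM _ _ fun Y => by rw [evM_lsub, hDi h hh]
  have hfs : ∀ γ ∈ Γ, lsub (big n (γ : Matrix (Fin n) (Fin n) ℝ)) f = f := fun γ hγ =>
    ext_evM _ _ fun Y => by rw [evM_lsub, hfi γ hγ]
  let F : SpecialLinearGroup (Fin n) ℝ → ℝ := fun g =>
    pair D (lsub (big n (g : Matrix (Fin n) (Fin n) ℝ)) f)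
  obtain ⟨P, hP⟩ := pair_poly D f
  have hconst : ∀ g, F g = F 1 := Pool.Agent.H9.IP.regular_const H Γ hc P F
    (fun g => (hP _).symm)
    (fun γ hγ g => by
      show pair D (lsub (big n ((γ * g : SpecialLinearGroup (Fin n) ℝ) :
        Matrix (Fin n) (Fin n) ℝ)) f) = _
      rw [Matrix.SpecialLinearGroup.coe_mul, hmul, hfs γ hγ])
    (fun h hh g => by
      show pair D (lsub (big n ((g * h : SpecialLinearGroup (Fin n) ℝ) :
        Matrix (Fin n) (Fin n) ℝ)) f) = _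
      rw [Matrix.SpecialLinearGroup.coe_mul, hmul, ← hadj, hDs h hh])
  obtain ⟨g₁, hg₁⟩ := exists_sl hn hf hf0
  obtain ⟨g₂, hg₂⟩ := exists_sl hn hD hD0
  set D₂ := lsub (big n (g₂ : Matrix (Fin n) (Fin n) ℝ)) D with hD₂
  set f₁ := lsub (big n (g₁ : Matrix (Fin n) (Fin n) ℝ)) f with hf₁
  have hD₂w : BW μ D₂ := BW_lsub hD _
  have hf₁w : BW μ f₁ := BW_lsub hf _
  have hD₂1 : evM 1 D₂ ≠ 0 := by rw [hD₂, evM_lsub, Matrix.mul_one]; exact hg₂
  have hf₁1 : evM 1 f₁ ≠ 0 := by rw [hf₁, evM_lsub, Matrix.mul_one]; exact hg₁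
  -- constancy along the torus
  have hT : ∀ s : Fin n → ℝ, (∀ i, 0 < s i) → ∏ i, s i = 1 →
      ∑ ν ∈ f₁.support.image (fun α => fun i => ∑ j, α (i, j)),
        (∏ i, s i ^ ν i) * pair (rc ν D₂) (rc ν f₁) = F 1 := by
    intro s _ hs1
    rw [← pair_rc]
    have hdet : (Matrix.diagonal s).det = 1 := by rw [Matrix.det_diagonal, hs1]
    let z : SpecialLinearGroup (Fin n) ℝ := ⟨Matrix.diagonal s, hdet⟩
    have h1 := hconst (g₁ * z * g₂.transpose)
    have h2 : F (g₁ * z * g₂.transpose) = pair D₂ (lsub (big n (Matrix.diagonal s)) f₁) := by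
      show pair D (lsub (big n ((g₁ * z * g₂.transpose : SpecialLinearGroup (Fin n) ℝ) :
        Matrix (Fin n) (Fin n) ℝ)) f) = _
      rw [Matrix.SpecialLinearGroup.coe_mul, Matrix.SpecialLinearGroup.coe_mul,
        Matrix.SpecialLinearGroup.coe_transpose, hmul, hmul, ← hadj, Matrix.transpose_transpose]
    rw [← h2, h1]
  have hμS : μ ∈ f₁.support.image (fun α => fun i => ∑ j, α (i, j)) := by
    by_contra hcon
    have h1 := rc_eq_zero μ f₁ hcon
    have h2 := rc_one μ f₁ hf₁w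
    rw [h1] at h2
    exact hf₁1 (h2.symm.trans (map_zero _))
  have hcμ := coeff_zero_of_const _ (∑ i, μ i) (fun ν hν => by
    rw [Finset.mem_image] at hν
    obtain ⟨α, hα, rfl⟩ := hν
    exact row_sum μ f₁ hf₁w α hα) (fun ν => pair (rc ν D₂) (rc ν f₁)) (F 1) hT μ hμS hμ
  -- proportionality
  have h3 := prop_of_weights μ (rc μ D₂) (rc μ f₁) (rc_BW μ μ D₂ hD₂w) (rc_BW μ μ f₁ hf₁w)
    (rc_RW μ D₂) (rc_RW μ f₁)
  rw [rc_one μ f₁ hf₁w, rc_one μ D₂ hD₂w] at h3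
  have h4 : rc μ f₁ = C (evM 1 f₁ / evM 1 D₂) * rc μ D₂ := by
    have h5 : C (evM 1 f₁ / evM 1 D₂) * rc μ D₂ =
        C (evM 1 D₂)⁻¹ * (C (evM 1 f₁) * rc μ D₂) := by
      rw [← mul_assoc, ← C_mul, div_eq_inv_mul]
    rw [h5, h3, ← mul_assoc, ← C_mul, inv_mul_cancel₀ hD₂1, C_1, one_mul]
  have h6 : rc μ D₂ ≠ 0 := by
    intro h0
    have h7 := rc_one μ D₂ hD₂w
    rw [h0] at h7
    exact hD₂1 (h7.symm.trans (map_zero _))
  have h8 : pair (rc μ D₂) (rc μ f₁) = 0 := hcμ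
  rw [h4, pair_C_mul] at h8
  exact mul_ne_zero (div_ne_zero hf₁1 hD₂1) (pair_self_ne _ h6) h8

end Pool.Agent.H9.IR
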