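import Mathlib

/-!
# Homogeneous components of a polynomial which is invariant under a linear map
-/

set_option autoImplicit false

open MvPolynomial Matrix

namespace Pool.Agent.H9.IR

private theorem eval_smul_sum {σ : Type} [Fintype σ] (p : MvPolynomial σ ℝ) (t : ℝ) (x : σ → ℝ) :
    eval (t • x) p = ∑ k ∈ Finset.range (p.totalDegree + 1), t ^ k *
      eval x (homogeneousComponent k p) := by
  conv_lhs => rw [← MvPolynomial.sum_homogeneousComponent p]
  rw [map_sum]
  refine Finset.sum_congr rfl fun k _ => ?_
  have h := homogeneousComponent_isHomogeneous k p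
  set q := homogeneousComponent k p with hq
  rw [MvPolynomial.eval_eq, MvPolynomial.eval_eq, Finset.mul_sum]
  refine Finset.sum_congr rfl fun α hα => ?_
  have h1 : ∑ i, α i = k := by
    have h2 := h (MvPolynomial.mem_support_iff.1 hα)
    have h5 : (Finsupp.weight 1) α = ∑ i, α i := by
      rw [Finsupp.weight_apply, Finsupp.sum_fintype _ _ (by simp)]
      simp
    rw [← h2, h5]
  have h3 : ∏ i ∈ α.support, (t • x) i ^ α i = t ^ k * ∏ i ∈ α.support, x i ^ α i := by
    rw [← h1, ← Finset.prod_pow_eq_pow_sum]
    have h4 : ∏ i, t ^ α i = ∏ i ∈ α.support, t ^ α i := by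
      symm
      apply Finset.prod_subset (Finset.subset_univ _)
      intro i _ hi
      rw [Finsupp.notMem_support_iff.1 hi, pow_zero]
    rw [h4, ← Finset.prod_mul_distrib]
    refine Finset.prod_congr rfl fun i _ => ?_
    rw [Pi.smul_apply, smul_eq_mul, mul_pow]
  rw [h3]
  ring

/-- homogeneous components of an invariant polynomial are invariant -/
theorem hcomp_inv {σ : Type} [Fintype σ] (A : (σ → ℝ) → σ → ℝ)
    (hA : ∀ (t : ℝ) (x : σ → ℝ), A (t • x) = t • A x) (p : MvPolynomial σ ℝ)
    (h : ∀ x, eval (A x) p = eval x p) (k : ℕ) (x : σ → ℝ) :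
    eval (A x) (homogeneousComponent k p) = eval x (homogeneousComponent k p) := by
  by_cases hk : k ∈ Finset.range (p.totalDegree + 1)
  · let q : Polynomial ℝ := ∑ j ∈ Finset.range (p.totalDegree + 1),
      Polynomial.C (eval (A x) (homogeneousComponent j p) - eval x (homogeneousComponent j p)) *
        Polynomial.X ^ j
    have hq : q = 0 := by
      apply Polynomial.funext
      intro t
      have h1 := h (t • x)
      rw [hA, eval_smul_sum, eval_smul_sum] at h1
      show Polynomial.eval t (∑ j ∈ Finset.range (p.totalDegree + 1), _) = _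
      rw [Polynomial.eval_finsetSum, Polynomial.eval_zero, ← sub_eq_zero.2 h1,
        ← Finset.sum_sub_distrib]
      refine Finset.sum_congr rfl fun j _ => ?_
      simp
      ring
    have h2 : q.coeff k = eval (A x) (homogeneousComponent k p) -
        eval x (homogeneousComponent k p) := by
      show Polynomial.coeff (∑ j ∈ Finset.range (p.totalDegree + 1), _) k = _
      rw [Polynomial.finsetSum_coeff]
      simp only [Polynomial.coeff_C_mul_X_pow]
      rw [Finset.sum_ite_eq, if_pos hk]
    rw [hq, Polynomial.coeff_zero] at h2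
    exact (sub_eq_zero.1 h2.symm)
  · have h1 : homogeneousComponent k p = 0 := by
      apply MvPolynomial.homogeneousComponent_eq_zero
      rw [Finset.mem_range] at hk
      omega
    rw [h1, map_zero, map_zero]

end Pool.Agent.H9.IR
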