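import Pool.Agent.H9.IR.Defs

/-!
# Polynomials of the first `d` columns
-/

set_option autoImplicit false

open MvPolynomial Matrix

namespace Pool.Agent.H9.IR

open Pool.Agent.H9.IQ

theorem ph_ev {n d : ℕ} (hd : d ≤ n) (P : MvPolynomial (Fin n × Fin d) ℝ)
    (Y : Matrix (Fin n) (Fin n) ℝ) :
    evM Y (rename (fun q : Fin n × Fin d => (q.1, Fin.castLE hd q.2)) P) =
      eval (flat fun j i => Y i (Fin.castLE hd j)) P := by
  unfold evM
  rw [eval_rename]
  rfl

theorem ph_ne {n d : ℕ} (hd : d ≤ n) (P : MvPolynomial (Fin n × Fin d) ℝ) (hP : P ≠ 0) :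
    rename (fun q : Fin n × Fin d => (q.1, Fin.castLE hd q.2)) P ≠ 0 := by
  have hinj : Function.Injective (fun q : Fin n × Fin d => (q.1, Fin.castLE hd q.2)) := by
    rintro ⟨a, b⟩ ⟨a', b'⟩ h
    rw [Prod.mk.injEq] at h
    exact Prod.ext h.1 (Fin.castLE_injective hd h.2)
  intro h
  apply hP
  exact rename_injective _ hinj (by rw [h, map_zero])

theorem ph_inv {n d : ℕ} (hd : d ≤ n) (P : MvPolynomial (Fin n × Fin d) ℝ)
    (A : Matrix (Fin n) (Fin n) ℝ)
    (hA : ∀ v : Fin d → Fin n → ℝ, eval (flat fun j => A *ᵥ v j) P = eval (flat v) P) :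
    LInv A (rename (fun q : Fin n × Fin d => (q.1, Fin.castLE hd q.2)) P) := by
  intro Y
  rw [ph_ev, ph_ev]
  exact hA fun j i => Y i (Fin.castLE hd j)

theorem ph_BW {n d : ℕ} (hd : d ≤ n) (k : ℕ) (P : MvPolynomial (Fin n × Fin d) ℝ) (hP : Wt k P) :
    BW (fun j : Fin n => if j.val < d then k else 0)
      (rename (fun q : Fin n × Fin d => (q.1, Fin.castLE hd q.2)) P) := by
  intro B Y hB
  obtain ⟨A, hA⟩ : ∃ A : Matrix (Fin d) (Fin d) ℝ,
      A = Matrix.of fun i j => B (Fin.castLE hd i) (Fin.castLE hd j) := ⟨_, rfl⟩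
  -- the columns
  have h1 : (fun (j : Fin d) (i : Fin n) => (Y * B) i (Fin.castLE hd j)) =
      fun j => ∑ i, A i j • (fun (j : Fin d) (i : Fin n) => Y i (Fin.castLE hd j)) i := by
    funext j i
    rw [Matrix.mul_apply, Finset.sum_apply]
    have h2 : ∀ l : Fin d, (A l j • fun i => Y i (Fin.castLE hd l)) i =
        Y i (Fin.castLE hd l) * B (Fin.castLE hd l) (Fin.castLE hd j) := by
      intro l
      rw [Pi.smul_apply, smul_eq_mul, hA, Matrix.of_apply, mul_comm]
    rw [Finset.sum_congr rfl fun l _ => h2 l]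
    have h3 : ∑ l : Fin n, Y i l * B l (Fin.castLE hd j) =
        ∑ l ∈ Finset.univ.map (Fin.castLEEmb hd), Y i l * B l (Fin.castLE hd j) := by
      symm
      apply Finset.sum_subset (Finset.subset_univ _)
      intro l _ hl
      have h4 : d ≤ l.val := by
        by_contra h5
        apply hl
        rw [Finset.mem_map]
        exact ⟨⟨l.val, by omega⟩, Finset.mem_univ _, Fin.ext rfl⟩
      rw [hB l (Fin.castLE hd j) (by
        rw [Fin.lt_def, Fin.val_castLE]
        exact lt_of_lt_of_le j.2 h4), mul_zero]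
    rw [h3, Finset.sum_map]
    rfl
  -- the determinant
  have h2 : A.det = ∏ i, A i i := by
    apply Matrix.det_of_upperTriangular
    intro i j hij
    rw [hA, Matrix.of_apply]
    exact hB _ _ hij
  have h3 : ∏ i : Fin n, B i i ^ (if i.val < d then k else 0) = A.det ^ k := by
    rw [h2, ← Finset.prod_pow]
    have h4 : ∏ i : Fin n, B i i ^ (if i.val < d then k else 0) =
        ∏ i ∈ Finset.univ.map (Fin.castLEEmb hd), B i i ^ (if i.val < d then k else 0) := by
      symm
      apply Finset.prod_subset (Finset.subset_univ _)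
      intro l _ hl
      rw [if_neg, pow_zero]
      intro h5
      apply hl
      rw [Finset.mem_map]
      exact ⟨⟨l.val, h5⟩, Finset.mem_univ _, Fin.ext rfl⟩
    rw [h4, Finset.prod_map]
    refine Finset.prod_congr rfl fun i _ => ?_
    have h5 : (Fin.castLEEmb hd i).val < d := i.2
    rw [if_pos h5, hA, Matrix.of_apply]
    rfl
  rw [ph_ev, ph_ev, h1, hP, h3]

end Pool.Agent.H9.IR
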