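import Pool.Agent.H9.IR.Defs

/-!
# The determinant, products and powers
-/

set_option autoImplicit false

open MvPolynomial Matrix

namespace Pool.Agent.H9.IR

open Pool.Agent.H9.IQ

/-- the determinant of the generic matrix -/
noncomputable def Dt (n : ℕ) : MvPolynomial (Fin n × Fin n) ℝ :=
  (Matrix.of fun i j : Fin n => (X (i, j) : MvPolynomial (Fin n × Fin n) ℝ)).det

theorem dt_ev {n : ℕ} (Y : Matrix (Fin n) (Fin n) ℝ) : evM Y (Dt n) = Y.det := by
  unfold evM Dt
  rw [RingHom.map_det]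
  congr 1
  ext i j
  rw [RingHom.mapMatrix_apply, Matrix.map_apply, Matrix.of_apply, eval_X]

theorem dt_ne (n : ℕ) : Dt n ≠ 0 := by
  intro h
  have h1 := dt_ev (1 : Matrix (Fin n) (Fin n) ℝ)
  rw [h, Matrix.det_one] at h1
  unfold evM at h1
  rw [map_zero] at h1
  exact zero_ne_one h1

theorem dt_BW (n : ℕ) : BW (fun _ => 1) (Dt n) := by
  intro B Y hB
  rw [dt_ev, dt_ev, Matrix.det_mul, mul_comm]
  congr 1
  have h2 : B.det = ∏ i, B i i := by
    apply Matrix.det_of_isUpperTriangular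
    intro i j hij
    exact hB _ _ hij
  rw [h2]
  exact Finset.prod_congr rfl fun i _ => (pow_one _).symm

theorem dt_inv {n : ℕ} (A : Matrix (Fin n) (Fin n) ℝ) (hA : A.det = 1) : LInv A (Dt n) := by
  intro Y
  rw [dt_ev, dt_ev, Matrix.det_mul, hA, one_mul]

theorem ev_mul {n : ℕ} (Y : Matrix (Fin n) (Fin n) ℝ) (p q : MvPolynomial (Fin n × Fin n) ℝ) :
    evM Y (p * q) = evM Y p * evM Y q := by
  unfold evM
  rw [map_mul]

theorem ev_pow {n : ℕ} (Y : Matrix (Fin n) (Fin n) ℝ) (p : MvPolynomial (Fin n × Fin n) ℝ) (k : ℕ) :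
    evM Y (p ^ k) = evM Y p ^ k := by
  unfold evM
  rw [map_pow]

theorem bw_one {n : ℕ} : BW (fun _ : Fin n => 0) 1 := by
  intro B Y _
  unfold evM
  rw [map_one, map_one, mul_one]
  simp

theorem bw_mul {n : ℕ} {μ ν : Fin n → ℕ} {p q : MvPolynomial (Fin n × Fin n) ℝ} (hp : BW μ p)
    (hq : BW ν q) : BW (fun i => μ i + ν i) (p * q) := by
  intro B Y hB
  rw [ev_mul, ev_mul, hp B Y hB, hq B Y hB]
  have h : ∏ i, B i i ^ (μ i + ν i) = (∏ i, B i i ^ μ i) * ∏ i, B i i ^ ν i := by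
    rw [← Finset.prod_mul_distrib]
    exact Finset.prod_congr rfl fun i _ => pow_add _ _ _
  rw [h]
  ring

theorem bw_pow {n : ℕ} {μ : Fin n → ℕ} {p : MvPolynomial (Fin n × Fin n) ℝ} (hp : BW μ p) (k : ℕ) :
    BW (fun i => k * μ i) (p ^ k) := by
  intro B Y hB
  rw [ev_pow, ev_pow, hp B Y hB, mul_pow, ← Finset.prod_pow]
  congr 1
  refine Finset.prod_congr rfl fun i _ => ?_
  rw [← pow_mul, Nat.mul_comm]

theorem bw_prod {n : ℕ} {I : Type} (s : Finset I) (μ : I → Fin n → ℕ)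
    (p : I → MvPolynomial (Fin n × Fin n) ℝ) (hp : ∀ d ∈ s, BW (μ d) (p d)) :
    BW (fun i => ∑ d ∈ s, μ d i) (∏ d ∈ s, p d) := by
  classical
  induction s using Finset.induction_on with
  | empty =>
    simp only [Finset.sum_empty, Finset.prod_empty]
    exact bw_one
  | insert a s ha ih =>
    have h1 := bw_mul (hp a (Finset.mem_insert_self _ _))
      (ih fun d hd => hp d (Finset.mem_insert_of_mem hd))
    rw [Finset.prod_insert ha]
    have h2 : (fun i => ∑ d ∈ insert a s, μ d i) = fun i => μ a i + ∑ d ∈ s, μ d i := by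
      funext i
      rw [Finset.sum_insert ha]
    rw [h2]
    exact h1

theorem linv_one {n : ℕ} (A : Matrix (Fin n) (Fin n) ℝ) : LInv A 1 := by
  intro Y
  unfold evM
  rw [map_one, map_one]

theorem linv_mul {n : ℕ} {A : Matrix (Fin n) (Fin n) ℝ} {p q : MvPolynomial (Fin n × Fin n) ℝ}
    (hp : LInv A p) (hq : LInv A q) : LInv A (p * q) := by
  intro Y
  rw [ev_mul, ev_mul, hp, hq]

theorem linv_pow {n : ℕ} {A : Matrix (Fin n) (Fin n) ℝ} {p : MvPolynomial (Fin n × Fin n) ℝ}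
    (hp : LInv A p) (k : ℕ) : LInv A (p ^ k) := by
  intro Y
  rw [ev_pow, ev_pow, hp]

theorem linv_prod {n : ℕ} {A : Matrix (Fin n) (Fin n) ℝ} {I : Type} (s : Finset I)
    (p : I → MvPolynomial (Fin n × Fin n) ℝ) (hp : ∀ d ∈ s, LInv A (p d)) :
    LInv A (∏ d ∈ s, p d) := by
  classical
  induction s using Finset.induction_on with
  | empty =>
    rw [Finset.prod_empty]
    exact linv_one A
  | insert a s ha ih =>
    rw [Finset.prod_insert ha]
    exact linv_mul (hp a (Finset.mem_insert_self _ _))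
      (ih fun d hd => hp d (Finset.mem_insert_of_mem hd))

end Pool.Agent.H9.IR
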