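import Pool.Agent.H9.IR.Defs

/-!
# A relative invariant of `d` vectors has a right weight as a polynomial of `n` vectors

For upper triangular `B` the first `d` columns of `Y B` are the first `d` columns of `Y` times the upper left block of `B`,
whose determinant is the product of its diagonal entries.
-/

set_option autoImplicit false

open MvPolynomial Matrix

namespace Pool.Agent.H9.IR

open Pool.Agent.H9.IQ

theorem wt_bw {n d k : ℕ} (hd : d ≤ n) (P : MvPolynomial (Fin n × Fin d) ℝ) (hP : Wt k P) :
    BW (fun j : Fin n => if (j : ℕ) < d then k else 0)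
      (rename (fun q : Fin n × Fin d => (q.1, Fin.castLE hd q.2)) P) := by
  obtain ⟨e, rfl⟩ := Nat.exists_eq_add_of_le hd
  intro B Y hB
  have h1 : ∀ Z : Matrix (Fin (d + e)) (Fin (d + e)) ℝ,
      evM Z (rename (fun q : Fin (d + e) × Fin d => (q.1, Fin.castLE hd q.2)) P) =
        eval (flat fun (j : Fin d) (i : Fin (d + e)) => Z i (Fin.castAdd e j)) P := by
    intro Z
    unfold evM
    rw [eval_rename]
    rfl
  rw [h1, h1]
  have h2 : (fun (j : Fin d) (i : Fin (d + e)) => (Y * B) i (Fin.castAdd e j)) =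
      fun j : Fin d => ∑ l : Fin d, (Matrix.of fun l j : Fin d => B (Fin.castAdd e l) (Fin.castAdd e j)) l j •
        (fun i : Fin (d + e) => Y i (Fin.castAdd e l)) := by
    funext j i
    rw [Matrix.mul_apply, Fin.sum_univ_add, Finset.sum_apply]
    have h3 : ∑ l : Fin e, Y i (Fin.natAdd d l) * B (Fin.natAdd d l) (Fin.castAdd e j) = 0 := by
      refine Finset.sum_eq_zero fun l _ => ?_
      rw [hB (Fin.natAdd d l) (Fin.castAdd e j) (by
        rw [Fin.lt_def, Fin.val_castAdd, Fin.val_natAdd]
        have := j.2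
        omega), mul_zero]
    rw [h3, add_zero]
    refine Finset.sum_congr rfl fun l _ => ?_
    rw [Pi.smul_apply, smul_eq_mul, Matrix.of_apply, mul_comm]
  rw [h2, hP]
  congr 1
  rw [Fin.prod_univ_add]
  have h4 : ∏ i : Fin e, B (Fin.natAdd d i) (Fin.natAdd d i) ^
      (if ((Fin.natAdd d i : Fin (d + e)) : ℕ) < d then k else 0) = 1 := by
    refine Finset.prod_eq_one fun i _ => ?_
    rw [if_neg (by rw [Fin.val_natAdd]; omega), pow_zero]
  rw [h4, mul_one]
  have h5 : ∏ i : Fin d, B (Fin.castAdd e i) (Fin.castAdd e i) ^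
      (if ((Fin.castAdd e i : Fin (d + e)) : ℕ) < d then k else 0) =
      (∏ i : Fin d, B (Fin.castAdd e i) (Fin.castAdd e i)) ^ k := by
    rw [← Finset.prod_pow]
    refine Finset.prod_congr rfl fun i _ => ?_
    rw [if_pos (by rw [Fin.val_castAdd]; exact i.2)]
  rw [h5, Matrix.det_of_isUpperTriangular]
  · rfl
  · intro i j hij
    rw [Matrix.of_apply]
    exact hB _ _ (by
      rw [Fin.lt_def, Fin.val_castAdd, Fin.val_castAdd]
      exact hij)

end Pool.Agent.H9.IR
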