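import Pool.Agent.H9.IR.Defs

/-!
# Column degrees, part (A) of Ra: components, permutations, transvections
-/

set_option autoImplicit false

open MvPolynomial Matrix

namespace Pool.Agent.H9.IR

/-- all monomials of `p` have column degrees `κ` -/
def CD {n : ℕ} (κ : Fin n → ℕ) (p : MvPolynomial (Fin n × Fin n) ℝ) : Prop :=
  ∀ α ∈ p.support, ∀ j, ∑ i, α (i, j) = κ j

/-- column component: the monomials with column degrees `κ` -/
noncomputable def cc {n : ℕ} (κ : Fin n → ℕ) (p : MvPolynomial (Fin n × Fin n) ℝ) :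
    MvPolynomial (Fin n × Fin n) ℝ :=
  ∑ α ∈ p.support with (∀ j, ∑ i, α (i, j) = κ j), monomial α (coeff α p)

/-- the column degrees of a monomial -/
private def cd {n : ℕ} (α : (Fin n × Fin n) →₀ ℕ) : Fin n → ℕ := fun j => ∑ i, α (i, j)

private theorem cd_add {n : ℕ} (α β : (Fin n × Fin n) →₀ ℕ) (j : Fin n) :
    cd (α + β) j = cd α j + cd β j := by
  unfold cd
  rw [← Finset.sum_add_distrib]
  exact Finset.sum_congr rfl fun i _ => rfl

theorem coeff_cc {n : ℕ} (κ : Fin n → ℕ) (p : MvPolynomial (Fin n × Fin n) ℝ)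
    (α : (Fin n × Fin n) →₀ ℕ) :
    coeff α (cc κ p) = if ∀ j, ∑ i, α (i, j) = κ j then coeff α p else 0 := by
  classical
  unfold cc
  rw [coeff_sum]
  simp only [coeff_monomial]
  rw [Finset.sum_ite_eq' _ α]
  by_cases h : ∀ j, ∑ i, α (i, j) = κ j
  · rw [if_pos h]
    by_cases h2 : α ∈ p.support
    · rw [if_pos (Finset.mem_filter.2 ⟨h2, h⟩)]
    · rw [if_neg fun h3 => h2 (Finset.mem_filter.1 h3).1, notMem_support_iff.1 h2]
  · rw [if_neg h, if_neg fun h3 => h (Finset.mem_filter.1 h3).2]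

theorem cd_cc {n : ℕ} (κ : Fin n → ℕ) (p : MvPolynomial (Fin n × Fin n) ℝ) : CD κ (cc κ p) := by
  intro α hα
  rw [mem_support_iff, coeff_cc] at hα
  by_contra h
  rw [if_neg h] at hα
  exact hα rfl

theorem exists_cc {n : ℕ} {p : MvPolynomial (Fin n × Fin n) ℝ} (hp : p ≠ 0) :
    ∃ κ, cc κ p ≠ 0 := by
  obtain ⟨α, hα⟩ := (support_nonempty (p := p)).2 hp
  refine ⟨fun j => ∑ i, α (i, j), fun h => ?_⟩
  have h1 := coeff_cc (fun j => ∑ i, α (i, j)) p α
  rw [h, if_pos fun j => rfl, coeff_zero] at h1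
  exact (mem_support_iff.1 hα) h1.symm

/-- `rmul (diagonal b)` of a monomial -/
private theorem rmul_mono {n : ℕ} (b : Fin n → ℝ) (α : (Fin n × Fin n) →₀ ℕ) (a : ℝ) :
    rmul (Matrix.diagonal b) (monomial α a) = monomial α ((∏ j, b j ^ cd α j) * a) := by
  classical
  have hX : ∀ q : Fin n × Fin n, ∑ k, C (Matrix.diagonal b k q.2) * X (q.1, k) =
      C (b q.2) * (X q : MvPolynomial (Fin n × Fin n) ℝ) := by
    intro q
    rw [Finset.sum_eq_single q.2]
    · rw [Matrix.diagonal_apply_eq]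
    · intro k _ hk
      rw [Matrix.diagonal_apply_ne _ hk, C_0, zero_mul]
    · intro h
      exact absurd (Finset.mem_univ _) h
  unfold rmul
  simp only [hX]
  rw [aeval_monomial, Finsupp.prod_fintype _ _ fun q => pow_zero _]
  simp only [mul_pow]
  rw [Finset.prod_mul_distrib]
  have h1 : ∏ q : Fin n × Fin n, (X q : MvPolynomial (Fin n × Fin n) ℝ) ^ α q = monomial α 1 := by
    rw [monomial_eq, C_1, one_mul, Finsupp.prod_fintype _ _ fun q => pow_zero _]
  have h2 : ∏ q : Fin n × Fin n, (C (b q.2) : MvPolynomial (Fin n × Fin n) ℝ) ^ α q =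
      C (∏ j, b j ^ cd α j) := by
    rw [Fintype.prod_prod_type_right, map_prod]
    refine Finset.prod_congr rfl fun j _ => ?_
    unfold cd
    rw [← Finset.prod_pow_eq_pow_sum, map_prod]
    exact Finset.prod_congr rfl fun i _ => (map_pow _ _ _).symm
  rw [h1, h2, algebraMap_eq, ← mul_assoc, ← C_mul, C_mul_monomial, mul_one, mul_comm a]

private theorem rmul_add {n : ℕ} (B : Matrix (Fin n) (Fin n) ℝ)
    (p q : MvPolynomial (Fin n × Fin n) ℝ) : rmul B (p + q) = rmul B p + rmul B q :=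
  map_add _ _ _

private theorem rmul_mul {n : ℕ} (B : Matrix (Fin n) (Fin n) ℝ)
    (p q : MvPolynomial (Fin n × Fin n) ℝ) : rmul B (p * q) = rmul B p * rmul B q :=
  map_mul _ _ _

private theorem rmul_sum {n : ℕ} (B : Matrix (Fin n) (Fin n) ℝ) {I : Type*} (s : Finset I)
    (p : I → MvPolynomial (Fin n × Fin n) ℝ) : rmul B (∑ i ∈ s, p i) = ∑ i ∈ s, rmul B (p i) :=
  map_sum (aeval _) _ _

/-- the character `b ↦ ∏ b_j ^ κ_j` -/
private def mon {n : ℕ} (κ : Fin n → ℕ) : (Fin n → ℝ) →* ℝ where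
  toFun b := ∏ j, b j ^ κ j
  map_one' := by simp
  map_mul' b b' := by
    rw [← Finset.prod_mul_distrib]
    exact Finset.prod_congr rfl fun j _ => mul_pow _ _ _

private theorem mon_apply {n : ℕ} (κ : Fin n → ℕ) (b : Fin n → ℝ) :
    mon κ b = ∏ j, b j ^ κ j := rfl

private theorem mon_inj {n : ℕ} : Function.Injective (mon (n := n)) := by
  classical
  intro κ κ' h
  funext l
  have h1 := DFunLike.congr_fun h (fun j => if j = l then 2 else 1)
  rw [mon_apply, mon_apply] at h1
  have h2 : ∀ κ : Fin n → ℕ, ∏ j, (if j = l then (2 : ℝ) else 1) ^ κ j = 2 ^ κ l := by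
    intro κ
    rw [Finset.prod_eq_single l]
    · rw [if_pos rfl]
    · intro j _ hj
      rw [if_neg hj, one_pow]
    · intro h
      exact absurd (Finset.mem_univ _) h
  rw [h2, h2] at h1
  exact pow_right_injective₀ (by norm_num) (by norm_num) h1

theorem cc_mem {n : ℕ} (W : Submodule ℝ (MvPolynomial (Fin n × Fin n) ℝ))
    (hB : ∀ p ∈ W, ∀ B : Matrix (Fin n) (Fin n) ℝ, rmul B p ∈ W) (κ : Fin n → ℕ)
    (p : MvPolynomial (Fin n × Fin n) ℝ) (hp : p ∈ W) : cc κ p ∈ W := by
  classical
  by_contra hcon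
  obtain ⟨f, hf, hfW⟩ := Submodule.exists_le_ker_of_notMem hcon
  obtain ⟨K, hK⟩ : ∃ K : Finset (Fin n → ℕ), K = p.support.image cd := ⟨_, rfl⟩
  have hcc : ∀ κ', cc κ' p = ∑ α ∈ p.support with cd α = κ', monomial α (coeff α p) := by
    intro κ'
    unfold cc
    refine Finset.sum_congr (Finset.filter_congr fun α _ => ?_) fun _ _ => rfl
    exact ⟨fun h => funext h, fun h j => congrFun h j⟩
  have hz : ∀ b : Fin n → ℝ, ∑ κ' ∈ K, f (cc κ' p) * mon κ' b = 0 := by
    intro b
    have h1 : f (rmul (Matrix.diagonal b) p) = 0 := LinearMap.mem_ker.1 (hfW (hB p hp _))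
    have h2 : rmul (Matrix.diagonal b) p =
        ∑ α ∈ p.support, (∏ j, b j ^ cd α j) • monomial α (coeff α p) := by
      conv_lhs => rw [p.as_sum]
      rw [rmul_sum]
      refine Finset.sum_congr rfl fun α _ => ?_
      rw [rmul_mono, smul_monomial, smul_eq_mul]
    rw [h2, map_sum, ← Finset.sum_fiberwise_of_maps_to (s := p.support) (t := K) (g := cd)
      (fun α hα => by rw [hK]; exact Finset.mem_image_of_mem _ hα)] at h1
    rw [← h1]
    refine Finset.sum_congr rfl fun κ' _ => ?_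
    rw [hcc κ', map_sum, Finset.sum_mul]
    refine Finset.sum_congr rfl fun α hα => ?_
    rw [map_smul, smul_eq_mul, mul_comm, mon_apply, (Finset.mem_filter.1 hα).2]
  have hli := (linearIndependent_monoidHom (Fin n → ℝ) ℝ).comp (mon (n := n)) mon_inj
  rw [linearIndependent_iff'] at hli
  have h3 := hli K (fun κ' => f (cc κ' p)) (by
    funext b
    rw [Finset.sum_apply, Pi.zero_apply, ← hz b]
    exact Finset.sum_congr rfl fun κ' _ => rfl)
  by_cases hκ : κ ∈ K
  · exact hf (h3 κ hκ)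
  · have h4 : cc κ p = 0 := by
      rw [hcc κ]
      refine Finset.sum_eq_zero fun α hα => ?_
      obtain ⟨h5, h6⟩ := Finset.mem_filter.1 hα
      exact absurd (by rw [hK, ← h6]; exact Finset.mem_image_of_mem _ h5) hκ
    exact hf (by rw [h4, map_zero])

theorem cd_of_cc {n : ℕ} (κ : Fin n → ℕ) (p : MvPolynomial (Fin n × Fin n) ℝ)
    (h : ∀ κ', κ' ≠ κ → cc κ' p = 0) : CD κ p := by
  intro α hα
  by_contra hcon
  have h1 := h (cd α) (fun h2 => hcon fun j => congrFun h2 j)
  have h2 := coeff_cc (cd α) p α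
  rw [h1, if_pos (show ∀ j, ∑ i, α (i, j) = cd α j from fun j => rfl), coeff_zero] at h2
  exact (mem_support_iff.1 hα) h2.symm

theorem cd_sum {n N : ℕ} {κ : Fin n → ℕ} {p : MvPolynomial (Fin n × Fin n) ℝ}
    (hp : p.IsHomogeneous N) (h0 : p ≠ 0) (h : CD κ p) : ∑ j, κ j = N := by
  obtain ⟨α, hα⟩ := (support_nonempty (p := p)).2 h0
  have h1 : Finsupp.degree α = N := by
    rw [Finsupp.degree_eq_weight_one]
    exact hp (mem_support_iff.1 hα)
  rw [← h1, Finsupp.degree_eq_sum, Fintype.sum_prod_type_right]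
  exact Finset.sum_congr rfl fun j _ => (h α hα j).symm

theorem cd_diag {n : ℕ} {κ : Fin n → ℕ} {p : MvPolynomial (Fin n × Fin n) ℝ} (h : CD κ p)
    (b : Fin n → ℝ) (Y : Matrix (Fin n) (Fin n) ℝ) :
    evM (Y * Matrix.diagonal b) p = (∏ i, b i ^ κ i) * evM Y p := by
  rw [← evM_rmul]
  have h1 : rmul (Matrix.diagonal b) p = C (∏ i, b i ^ κ i) * p := by
    conv_lhs => rw [p.as_sum]
    conv_rhs => rw [p.as_sum]
    rw [rmul_sum, Finset.mul_sum]
    refine Finset.sum_congr rfl fun α hα => ?_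
    rw [rmul_mono, C_mul_monomial]
    congr 2
    exact Finset.prod_congr rfl fun j _ => by rw [show cd α j = κ j from h α hα j]
  rw [h1]
  unfold evM
  rw [map_mul, eval_C]

theorem cd_perm {n : ℕ} (W : Submodule ℝ (MvPolynomial (Fin n × Fin n) ℝ))
    (hB : ∀ p ∈ W, ∀ B : Matrix (Fin n) (Fin n) ℝ, rmul B p ∈ W) (κ : Fin n → ℕ)
    (p : MvPolynomial (Fin n × Fin n) ℝ) (hp : p ∈ W) (h0 : p ≠ 0) (h : CD κ p)
    (σ : Equiv.Perm (Fin n)) : ∃ q ∈ W, q ≠ 0 ∧ CD (κ ∘ σ) q := by
  classical
  obtain ⟨e, he⟩ : ∃ e : Fin n × Fin n → Fin n × Fin n, e = fun q => (q.1, σ.symm q.2) := ⟨_, rfl⟩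
  have hei : Function.Injective e := by
    rintro ⟨a, l⟩ ⟨a', l'⟩ h1
    rw [he] at h1
    simpa using h1
  have hren : rmul (Matrix.of fun k l => if k = σ.symm l then (1 : ℝ) else 0) p = rename e p := by
    have h1 : (aeval (fun q : Fin n × Fin n =>
        ∑ k, C ((Matrix.of fun k l => if k = σ.symm l then (1 : ℝ) else 0) k q.2) * X (q.1, k)) :
          MvPolynomial (Fin n × Fin n) ℝ →ₐ[ℝ] MvPolynomial (Fin n × Fin n) ℝ) = rename e := by
      apply MvPolynomial.algHom_ext
      intro q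
      rw [aeval_X, rename_X]
      rw [Finset.sum_eq_single (σ.symm q.2)]
      · simp [he]
      · intro k _ hk
        simp [hk]
      · intro h
        exact absurd (Finset.mem_univ _) h
    exact DFunLike.congr_fun h1 p
  refine ⟨rename e p, ?_, ?_, ?_⟩
  · rw [← hren]
    exact hB p hp _
  · intro h1
    exact h0 (rename_injective e hei (by rw [h1, map_zero]))
  · intro β hβ j
    rw [support_rename_of_injective hei] at hβ
    obtain ⟨α, hα, rfl⟩ := Finset.mem_image.1 hβ
    have h1 : ∀ i, Finsupp.mapDomain e α (i, j) = α (i, σ j) := by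
      intro i
      have h2 := Finsupp.mapDomain_apply hei α (i, σ j)
      rw [he] at h2 ⊢
      simpa using h2
    rw [Finset.sum_congr rfl fun i _ => h1 i]
    exact h α hα (σ j)

/-- the monomials have column degrees `κ + k (e_i - e_j)` with `k ≥ m` -/
private def SH {n : ℕ} (i j : Fin n) (m : ℕ) (κ : Fin n → ℕ)
    (p : MvPolynomial (Fin n × Fin n) ℝ) : Prop :=
  ∀ α ∈ p.support, ∃ k, m ≤ k ∧ cd α i = κ i + k ∧ cd α j + k = κ j ∧
    ∀ l, l ≠ i → l ≠ j → cd α l = κ l

private theorem sh_add {n : ℕ} {i j : Fin n} {m : ℕ} {κ : Fin n → ℕ}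
    {p q : MvPolynomial (Fin n × Fin n) ℝ} (hp : SH i j m κ p) (hq : SH i j m κ q) :
    SH i j m κ (p + q) := by
  classical
  intro α hα
  rcases Finset.mem_union.1 (support_add hα) with h | h
  · exact hp α h
  · exact hq α h

private theorem sh_mono {n : ℕ} {i j : Fin n} {m m' : ℕ} {κ : Fin n → ℕ}
    {p : MvPolynomial (Fin n × Fin n) ℝ} (hm : m' ≤ m) (hp : SH i j m κ p) : SH i j m' κ p := by
  intro α hα
  obtain ⟨k, h1, h2⟩ := hp α hα
  exact ⟨k, hm.trans h1, h2⟩

private theorem sh_zero {n : ℕ} {i j : Fin n} {m : ℕ} {κ : Fin n → ℕ} :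
    SH i j m κ (0 : MvPolynomial (Fin n × Fin n) ℝ) := by
  intro α hα
  rw [support_zero] at hα
  exact absurd hα (Finset.notMem_empty _)

private theorem sh_mul {n : ℕ} {i j : Fin n} {m m' : ℕ} {κ μ : Fin n → ℕ}
    {p q : MvPolynomial (Fin n × Fin n) ℝ} (hp : SH i j m κ p) (hq : SH i j m' μ q) :
    SH i j (m + m') (κ + μ) (p * q) := by
  classical
  intro α hα
  obtain ⟨β, hβ, γ, hγ, rfl⟩ := Finset.mem_add.1 (support_mul p q hα)
  obtain ⟨k, h1, h2, h3, h4⟩ := hp β hβ
  obtain ⟨k', h1', h2', h3', h4'⟩ := hq γ hγ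
  refine ⟨k + k', Nat.add_le_add h1 h1', ?_, ?_, ?_⟩
  · rw [cd_add, Pi.add_apply]
    omega
  · rw [cd_add, Pi.add_apply]
    omega
  · intro l hl hl'
    rw [cd_add, Pi.add_apply, h4 l hl hl', h4' l hl hl']

private theorem sh_C {n : ℕ} {i j : Fin n} {m : ℕ} {κ : Fin n → ℕ} (a : ℝ)
    {p : MvPolynomial (Fin n × Fin n) ℝ} (hp : SH i j m κ p) : SH i j m κ (C a * p) := by
  intro α hα
  rw [mem_support_iff, coeff_C_mul] at hα
  exact hp α (mem_support_iff.2 (right_ne_zero_of_mul hα))

/-- the two properties which are proved by induction -/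
private def PP {n : ℕ} (i j : Fin n) (s : ℝ) (κ : Fin n → ℕ)
    (p : MvPolynomial (Fin n × Fin n) ℝ) : Prop :=
  SH i j 0 κ p ∧ SH i j 1 κ (rmul (Matrix.transvection i j s) p - p)

private theorem pp_mul {n : ℕ} {i j : Fin n} {s : ℝ} {κ μ : Fin n → ℕ}
    {p q : MvPolynomial (Fin n × Fin n) ℝ} (hp : PP i j s κ p) (hq : PP i j s μ q) :
    PP i j s (κ + μ) (p * q) := by
  obtain ⟨h1, h2⟩ := hp
  obtain ⟨h3, h4⟩ := hq
  refine ⟨sh_mul h1 h3, ?_⟩
  have h5 : SH i j 0 μ (rmul (Matrix.transvection i j s) q) := by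
    have h6 := sh_add (sh_mono (Nat.zero_le _) h4) h3
    rwa [sub_add_cancel] at h6
  have e : rmul (Matrix.transvection i j s) (p * q) - p * q =
      (rmul (Matrix.transvection i j s) p - p) * rmul (Matrix.transvection i j s) q +
        p * (rmul (Matrix.transvection i j s) q - q) := by
    rw [rmul_mul]
    ring
  rw [e]
  exact sh_add (sh_mul h2 h5) (sh_mul h1 h4)

private theorem cd_single {n : ℕ} (q : Fin n × Fin n) (l : Fin n) :
    cd (Finsupp.single q 1) l = if q.2 = l then 1 else 0 := by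
  classical
  unfold cd
  rw [Finset.sum_eq_single q.1]
  · rw [Finsupp.single_apply]
    by_cases h : q.2 = l
    · rw [if_pos h, if_pos (by rw [← h])]
    · rw [if_neg h, if_neg fun h1 => h (by rw [h1])]
  · intro a _ ha
    rw [Finsupp.single_apply, if_neg]
    intro h1
    exact ha (by rw [h1])
  · intro h
    exact absurd (Finset.mem_univ _) h

private theorem rmul_X {n : ℕ} (i j : Fin n) (s : ℝ) (q : Fin n × Fin n) :
    rmul (Matrix.transvection i j s) (X q) - X q =
      if q.2 = j then C s * X (q.1, i) else 0 := by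
  classical
  unfold rmul
  rw [aeval_X]
  have h1 : ∀ k, C (Matrix.transvection i j s k q.2) * (X (q.1, k) : MvPolynomial _ ℝ) =
      (if k = q.2 then X (q.1, k) else 0) +
        (if k = i then (if q.2 = j then C s * X (q.1, i) else 0) else 0) := by
    intro k
    rw [Matrix.transvection, Matrix.add_apply, C_add, add_mul, Matrix.one_apply]
    congr 1
    · by_cases h : k = q.2
      · rw [if_pos h, if_pos h, C_1, one_mul]
      · rw [if_neg h, if_neg h, C_0, zero_mul]
    · rw [Matrix.single_apply]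
      by_cases h : k = i
      · by_cases h' : q.2 = j
        · rw [if_pos ⟨h.symm, h'.symm⟩, if_pos h, if_pos h', h]
        · rw [if_neg fun h2 => h' h2.2.symm, if_pos h, if_neg h', C_0, zero_mul]
      · rw [if_neg fun h2 => h h2.1.symm, if_neg h, C_0, zero_mul]
  rw [Finset.sum_congr rfl fun k _ => h1 k, Finset.sum_add_distrib,
    Finset.sum_ite_eq' Finset.univ q.2, Finset.sum_ite_eq' Finset.univ i,
    if_pos (Finset.mem_univ _), if_pos (Finset.mem_univ _)]
  ring

private theorem pp_X {n : ℕ} {i j : Fin n} (hij : i ≠ j) (s : ℝ) (q : Fin n × Fin n) :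
    PP i j s (cd (Finsupp.single q 1)) (X q) := by
  classical
  refine ⟨?_, ?_⟩
  · intro α hα
    rw [support_X, Finset.mem_singleton] at hα
    rw [hα]
    exact ⟨0, le_rfl, rfl, rfl, fun l _ _ => rfl⟩
  · rw [rmul_X]
    by_cases h : q.2 = j
    · rw [if_pos h]
      refine sh_C s ?_
      intro α hα
      rw [support_X, Finset.mem_singleton] at hα
      rw [hα]
      refine ⟨1, le_rfl, ?_, ?_, ?_⟩
      · rw [cd_single, cd_single, if_pos rfl, if_neg (by rw [h]; exact hij.symm)]
      · rw [cd_single, cd_single, if_neg hij, if_pos h]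
      · intro l hl hl'
        rw [cd_single, cd_single, if_neg (Ne.symm hl), if_neg (by rw [h]; exact Ne.symm hl')]
    · rw [if_neg h]
      exact sh_zero

private theorem pp_one {n : ℕ} (i j : Fin n) (s : ℝ) :
    PP i j s (cd 0) (1 : MvPolynomial (Fin n × Fin n) ℝ) := by
  refine ⟨?_, ?_⟩
  · intro α hα
    rw [← C_1, mem_support_iff, coeff_C] at hα
    have h : α = 0 := by
      by_contra h
      rw [if_neg (Ne.symm h)] at hα
      exact hα rfl
    rw [h]
    exact ⟨0, le_rfl, rfl, rfl, fun l _ _ => rfl⟩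
  · have h : rmul (Matrix.transvection i j s) (1 : MvPolynomial (Fin n × Fin n) ℝ) = 1 :=
      map_one (aeval _)
    rw [h, sub_self]
    exact sh_zero

private theorem cd_add' {n : ℕ} (α β : (Fin n × Fin n) →₀ ℕ) : cd (α + β) = cd α + cd β :=
  funext fun j => cd_add α β j

private theorem pp_mono {n : ℕ} {i j : Fin n} (hij : i ≠ j) (s : ℝ)
    (α : (Fin n × Fin n) →₀ ℕ) : PP i j s (cd α) (monomial α 1) := by
  induction α using Finsupp.induction_linear with
  | zero => exact pp_one i j s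
  | add α β h1 h2 =>
    rw [cd_add', show (monomial (α + β) (1 : ℝ) : MvPolynomial (Fin n × Fin n) ℝ) =
      monomial α 1 * monomial β 1 by rw [monomial_mul, mul_one]]
    exact pp_mul h1 h2
  | single q m =>
    induction m with
    | zero =>
      rw [Finsupp.single_zero]
      exact pp_one i j s
    | succ m ih =>
      rw [Finsupp.single_add, cd_add',
        show (monomial (Finsupp.single q m + Finsupp.single q 1) (1 : ℝ) :
          MvPolynomial (Fin n × Fin n) ℝ) = monomial (Finsupp.single q m) 1 * X q by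
          rw [X, monomial_mul, mul_one]]
      exact pp_mul ih (pp_X hij s q)

/-- invariance under a transvection, if the shifted components vanish -/
theorem transv {n : ℕ} (W : Submodule ℝ (MvPolynomial (Fin n × Fin n) ℝ))
    (hB : ∀ p ∈ W, ∀ B : Matrix (Fin n) (Fin n) ℝ, rmul B p ∈ W) (κ : Fin n → ℕ)
    (p : MvPolynomial (Fin n × Fin n) ℝ) (hp : p ∈ W) (h : CD κ p) (i j : Fin n) (hij : i ≠ j)
    (hno : ∀ (κ' : Fin n → ℕ) (k : ℕ), 1 ≤ k → κ' i = κ i + k → κ' j + k = κ j →
      (∀ l, l ≠ i → l ≠ j → κ' l = κ l) → ∀ q ∈ W, CD κ' q → q = 0) (s : ℝ)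
    (Y : Matrix (Fin n) (Fin n) ℝ) : evM (Y * Matrix.transvection i j s) p = evM Y p := by
  classical
  rw [← evM_rmul]
  have hsh : SH i j 1 κ (rmul (Matrix.transvection i j s) p - p) := by
    have h1 : rmul (Matrix.transvection i j s) p - p = ∑ α ∈ p.support,
        C (coeff α p) * (rmul (Matrix.transvection i j s) (monomial α 1) - monomial α 1) := by
      have h2 : p = ∑ α ∈ p.support, C (coeff α p) * monomial α 1 := by
        conv_lhs => rw [p.as_sum]
        refine Finset.sum_congr rfl fun α _ => ?_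
        rw [C_mul_monomial, mul_one]
      conv_lhs => rw [h2]
      rw [rmul_sum, ← Finset.sum_sub_distrib]
      refine Finset.sum_congr rfl fun α _ => ?_
      rw [rmul_mul, mul_sub, show rmul (Matrix.transvection i j s)
        (C (coeff α p) : MvPolynomial (Fin n × Fin n) ℝ) = C (coeff α p) from aeval_C _ _]
    rw [h1]
    have h3 : ∀ t : Finset ((Fin n × Fin n) →₀ ℕ), t ⊆ p.support → SH i j 1 κ (∑ α ∈ t,
        C (coeff α p) * (rmul (Matrix.transvection i j s) (monomial α 1) - monomial α 1)) := by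
      intro t
      induction t using Finset.induction_on with
      | empty =>
        intro _
        rw [Finset.sum_empty]
        exact sh_zero
      | insert α t hα ih =>
        intro ht
        rw [Finset.sum_insert hα]
        refine sh_add (sh_C _ ?_) (ih fun x hx => ht (Finset.mem_insert_of_mem hx))
        have h4 : cd α = κ := funext fun l => h α (ht (Finset.mem_insert_self _ _)) l
        rw [← h4]
        exact (pp_mono hij s α).2
    exact h3 _ subset_rfl
  have hz : rmul (Matrix.transvection i j s) p - p = 0 := by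
    by_contra hne
    obtain ⟨α, hα⟩ := (support_nonempty (p := _)).2 hne
    obtain ⟨k, hk, h1, h2, h3⟩ := hsh α hα
    have h4 := hno (cd α) k hk h1 h2 h3 (cc (cd α) (rmul (Matrix.transvection i j s) p))
      (cc_mem W hB _ _ (hB p hp _)) (cd_cc _ _)
    have h5 := coeff_cc (cd α) (rmul (Matrix.transvection i j s) p) α
    rw [h4, if_pos (show ∀ l, ∑ i, α (i, l) = cd α l from fun l => rfl), coeff_zero] at h5
    have h6 : coeff α p = 0 := by
      by_contra h7
      have h8 := h α (mem_support_iff.2 h7) i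
      have h9 : cd α i = κ i := h8
      omega
    rw [mem_support_iff, coeff_sub, ← h5, h6, sub_zero] at hα
    exact hα rfl
  rw [sub_eq_zero.1 hz]

end Pool.Agent.H9.IR
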