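import Pool.Agent.H9.IR.Defs

/-!
# Column degrees under transvections
-/

set_option autoImplicit false

open MvPolynomial Matrix

namespace Pool.Agent.H9.IR.C

/-- if `∑ t ^ k v_k` is in `W` for all real `t`, then all `v_k` are in `W` -/
theorem mem_of_pow {V : Type*} [AddCommGroup V] [Module ℝ V] (W : Submodule ℝ V) (K : Finset ℕ) (v : ℕ → V)
    (h : ∀ t : ℝ, ∑ k ∈ K, t ^ k • v k ∈ W) : ∀ k ∈ K, v k ∈ W := by
  classical
  intro k hk
  by_contra hn
  obtain ⟨f, hf, hW⟩ := Submodule.exists_dual_map_eq_bot_of_notMem hn inferInstance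
  have hz : ∀ w ∈ W, f w = 0 := by
    intro w hw
    have : f w ∈ W.map f := Submodule.mem_map_of_mem hw
    rw [hW] at this
    exact (Submodule.mem_bot ℝ).1 this
  let P : Polynomial ℝ := ∑ l ∈ K, Polynomial.C (f (v l)) * Polynomial.X ^ l
  have hP : P = 0 := by
    apply Polynomial.funext
    intro t
    have := hz _ (h t)
    rw [map_sum] at this
    simp only [map_smul, smul_eq_mul] at this
    rw [Polynomial.eval_zero]
    show Polynomial.eval t (∑ l ∈ K, Polynomial.C (f (v l)) * Polynomial.X ^ l) = 0
    rw [Polynomial.eval_finsetSum]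
    simp only [Polynomial.eval_mul, Polynomial.eval_C, Polynomial.eval_pow, Polynomial.eval_X]
    rw [← this]
    exact Finset.sum_congr rfl fun l _ => mul_comm _ _
  have hc : P.coeff k = f (v k) := by
    show (∑ l ∈ K, Polynomial.C (f (v l)) * Polynomial.X ^ l).coeff k = _
    rw [Polynomial.finsetSum_coeff]
    simp only [Polynomial.coeff_C_mul, Polynomial.coeff_X_pow, mul_ite, mul_one, mul_zero]
    rw [Finset.sum_ite_eq]
    rw [if_pos hk]
  rw [hP, Polynomial.coeff_zero] at hc
  exact hf hc.symm

/-- the weights of the coefficients -/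
def Good {n : ℕ} (i j : Fin n) (κ : Fin n → ℕ) (f : Polynomial (MvPolynomial (Fin n × Fin n) ℝ)) : Prop :=
  ∀ k, ∀ α, MvPolynomial.coeff α (f.coeff k) ≠ 0 → ∀ c,
    (∑ r, α (r, c)) + (if c = j then k else 0) = κ c + (if c = i then k else 0)

theorem Good.add {n : ℕ} {i j : Fin n} {κ : Fin n → ℕ} {f g : Polynomial (MvPolynomial (Fin n × Fin n) ℝ)}
    (hf : Good i j κ f) (hg : Good i j κ g) : Good i j κ (f + g) := by
  intro k α h
  rw [Polynomial.coeff_add, MvPolynomial.coeff_add] at h
  by_cases h1 : MvPolynomial.coeff α (f.coeff k) = 0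
  · rw [h1, zero_add] at h
    exact hg k α h
  · exact hf k α h1

theorem Good.zero {n : ℕ} {i j : Fin n} {κ : Fin n → ℕ} :
    Good i j κ (0 : Polynomial (MvPolynomial (Fin n × Fin n) ℝ)) := by
  intro k α h
  simp at h

theorem Good.sum {n : ℕ} {i j : Fin n} {κ : Fin n → ℕ} {ι : Type*} (S : Finset ι)
    (F : ι → Polynomial (MvPolynomial (Fin n × Fin n) ℝ)) (h : ∀ a ∈ S, Good i j κ (F a)) :
    Good i j κ (∑ a ∈ S, F a) := by
  classical
  induction S using Finset.induction_on with
  | empty => simpa using Good.zero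
  | insert a S ha ih =>
    rw [Finset.sum_insert ha]
    exact (h a (Finset.mem_insert_self _ _)).add (ih fun b hb => h b (Finset.mem_insert_of_mem hb))

theorem Good.mul {n : ℕ} {i j : Fin n} {κ κ' : Fin n → ℕ} {f g : Polynomial (MvPolynomial (Fin n × Fin n) ℝ)}
    (hf : Good i j κ f) (hg : Good i j κ' g) : Good i j (κ + κ') (f * g) := by
  classical
  intro k α h c
  rw [Polynomial.coeff_mul, MvPolynomial.coeff_sum] at h
  obtain ⟨ab, hab, h1⟩ := Finset.exists_ne_zero_of_sum_ne_zero h
  rw [MvPolynomial.coeff_mul] at h1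
  obtain ⟨βγ, hβγ, h2⟩ := Finset.exists_ne_zero_of_sum_ne_zero h1
  have h3 := hf ab.1 βγ.1 (left_ne_zero_of_mul h2) c
  have h4 := hg ab.2 βγ.2 (right_ne_zero_of_mul h2) c
  rw [Finset.HasAntidiagonal.mem_antidiagonal] at hab hβγ
  have h5 : ∑ r, α (r, c) = (∑ r, βγ.1 (r, c)) + ∑ r, βγ.2 (r, c) := by
    rw [← Finset.sum_add_distrib]
    refine Finset.sum_congr rfl fun r _ => ?_
    rw [← hβγ, Finsupp.add_apply]
  rw [h5, Pi.add_apply]
  split_ifs at h3 h4 ⊢ <;> omega

theorem Good.one {n : ℕ} {i j : Fin n} : Good i j 0 (1 : Polynomial (MvPolynomial (Fin n × Fin n) ℝ)) := by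
  classical
  intro k α h c
  rw [Polynomial.coeff_one] at h
  split_ifs at h with hk
  · rw [MvPolynomial.coeff_one] at h
    split_ifs at h with ha
    · subst hk
      subst ha
      simp
    · exact absurd rfl h
  · simp at h

theorem Good.const {n : ℕ} {i j : Fin n} (a : ℝ) :
    Good i j 0 (Polynomial.C (MvPolynomial.C a) : Polynomial (MvPolynomial (Fin n × Fin n) ℝ)) := by
  classical
  intro k α h c
  rw [Polynomial.coeff_C] at h
  split_ifs at h with hk
  · rw [MvPolynomial.coeff_C] at h
    split_ifs at h with ha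
    · subst hk
      subst ha
      simp
    · exact absurd rfl h
  · simp at h

theorem Good.pow {n : ℕ} {i j : Fin n} {κ : Fin n → ℕ} {f : Polynomial (MvPolynomial (Fin n × Fin n) ℝ)}
    (hf : Good i j κ f) (m : ℕ) : Good i j (m • κ) (f ^ m) := by
  induction m with
  | zero => simpa using Good.one
  | succ m ih =>
    rw [pow_succ, succ_nsmul]
    exact ih.mul hf

theorem Good.prod {n : ℕ} {i j : Fin n} {ι : Type*} (S : Finset ι)
    (F : ι → Polynomial (MvPolynomial (Fin n × Fin n) ℝ)) (κ : ι → Fin n → ℕ)
    (h : ∀ a ∈ S, Good i j (κ a) (F a)) : Good i j (∑ a ∈ S, κ a) (∏ a ∈ S, F a) := by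
  classical
  induction S using Finset.induction_on with
  | empty => simpa using Good.one
  | insert a S ha ih =>
    rw [Finset.sum_insert ha, Finset.prod_insert ha]
    exact (h a (Finset.mem_insert_self _ _)).mul (ih fun b hb => h b (Finset.mem_insert_of_mem hb))

/-- the images of the variables -/
noncomputable def lx {n : ℕ} (i j : Fin n) (q : Fin n × Fin n) : Polynomial (MvPolynomial (Fin n × Fin n) ℝ) :=
  Polynomial.C (X q) + if q.2 = j then Polynomial.X * Polynomial.C (X (q.1, i)) else 0

theorem good_lx {n : ℕ} (i j : Fin n) (q : Fin n × Fin n) : Good i j (Pi.single q.2 1) (lx i j q) := by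
  classical
  unfold lx
  refine Good.add ?_ ?_
  · intro k α h c
    rw [Polynomial.coeff_C] at h
    split_ifs at h with hk
    · rw [MvPolynomial.coeff_X'] at h
      split_ifs at h with ha
      · subst hk
        subst ha
        have : ∑ r, (Finsupp.single q 1 : (Fin n × Fin n) →₀ ℕ) (r, c) = (Pi.single q.2 1 : Fin n → ℕ) c := by
          by_cases hc : c = q.2
          · subst hc
            rw [Pi.single_eq_same, Finset.sum_eq_single q.1]
            · simp
            · intro r _ hr
              rw [Finsupp.single_apply, if_neg]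
              intro hh
              exact hr (by rw [hh])
            · intro hh
              exact absurd (Finset.mem_univ _) hh
          · rw [Pi.single_eq_of_ne hc]
            refine Finset.sum_eq_zero fun r _ => ?_
            rw [Finsupp.single_apply, if_neg]
            intro hh
            exact hc (by rw [hh])
        rw [this]
        simp
      · exact absurd rfl h
    · simp at h
  · split_ifs with hq
    · intro k α h c
      rcases k with _ | k
      · simp at h
      · rw [Polynomial.coeff_X_mul, Polynomial.coeff_C] at h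
        split_ifs at h with hk1
        · rw [MvPolynomial.coeff_X'] at h
          split_ifs at h with ha
          · subst ha
            have : ∑ r, (Finsupp.single (q.1, i) 1 : (Fin n × Fin n) →₀ ℕ) (r, c) =
                (Pi.single i 1 : Fin n → ℕ) c := by
              by_cases hc : c = i
              · subst hc
                rw [Pi.single_eq_same, Finset.sum_eq_single q.1]
                · simp
                · intro r _ hr
                  rw [Finsupp.single_apply, if_neg]
                  intro hh
                  exact hr (Prod.mk.inj hh).1.symm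
                · intro hh
                  exact absurd (Finset.mem_univ _) hh
              · rw [Pi.single_eq_of_ne hc]
                refine Finset.sum_eq_zero fun r _ => ?_
                rw [Finsupp.single_apply, if_neg]
                intro hh
                exact hc (Prod.mk.inj hh).2.symm
            rw [this, hk1, hq, Pi.single_apply, Pi.single_apply]
            ring
          · exact absurd rfl h
        · simp at h
    · exact Good.zero

/-- the substitution -/
noncomputable def Phi {n : ℕ} (i j : Fin n) (p : MvPolynomial (Fin n × Fin n) ℝ) :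
    Polynomial (MvPolynomial (Fin n × Fin n) ℝ) := aeval (lx i j) p

theorem good_Phi {n : ℕ} (i j : Fin n) (κ : Fin n → ℕ) (p : MvPolynomial (Fin n × Fin n) ℝ)
    (h : ∀ α ∈ p.support, ∀ c, ∑ r, α (r, c) = κ c) : Good i j κ (Phi i j p) := by
  classical
  unfold Phi
  rw [aeval_def, eval₂_eq']
  refine Good.sum _ _ fun α hα => ?_
  have h1 : Good i j (∑ q, α q • Pi.single q.2 1) (∏ q, lx i j q ^ α q) :=
    Good.prod _ _ _ fun q _ => (good_lx i j q).pow _
  have h2 : (∑ q : Fin n × Fin n, α q • (Pi.single q.2 1 : Fin n → ℕ)) = κ := by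
    funext c
    rw [Finset.sum_apply, ← h α hα c, Fintype.sum_prod_type]
    refine Finset.sum_congr rfl fun r _ => ?_
    rw [Finset.sum_eq_single c]
    · simp
    · intro b _ hb
      simp [Pi.single_apply, Ne.symm hb]
    · intro hh
      exact absurd (Finset.mem_univ _) hh
  have h3 := (Good.const (i := i) (j := j) (coeff α p)).mul h1
  rw [zero_add, h2] at h3
  exact h3

theorem Phi_eval {n : ℕ} (i j : Fin n) (p : MvPolynomial (Fin n × Fin n) ℝ) (s : ℝ) :
    Polynomial.eval (C s) (Phi i j p) = rmul (transvection i j s) p := by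
  classical
  let E : Polynomial (MvPolynomial (Fin n × Fin n) ℝ) →ₐ[ℝ] MvPolynomial (Fin n × Fin n) ℝ :=
    { Polynomial.evalRingHom (C s) with
      commutes' := fun r => by
        show Polynomial.eval (C s) (algebraMap ℝ _ r) = _
        rw [Polynomial.algebraMap_apply, Polynomial.eval_C] }
  have hE : ∀ f, E f = Polynomial.eval (C s) f := fun f => rfl
  rw [← hE]
  unfold Phi rmul
  rw [← AlgHom.comp_apply]
  congr 1
  apply MvPolynomial.algHom_ext
  intro q
  rw [AlgHom.comp_apply, aeval_X, aeval_X, hE]
  unfold lx transvection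
  have h1 : ∑ k, C ((1 + Matrix.single i j s : Matrix (Fin n) (Fin n) ℝ) k q.2) * (X (q.1, k) : MvPolynomial (Fin n × Fin n) ℝ) =
      X (q.1, q.2) + if q.2 = j then C s * X (q.1, i) else 0 := by
    have h2 : ∀ k, C ((1 + Matrix.single i j s : Matrix (Fin n) (Fin n) ℝ) k q.2) *
        (X (q.1, k) : MvPolynomial (Fin n × Fin n) ℝ) =
        (if k = q.2 then X (q.1, k) else 0) + (if k = i then (if q.2 = j then C s * X (q.1, k) else 0) else 0) := by
      intro k
      rw [Matrix.add_apply, map_add, add_mul, Matrix.one_apply, Matrix.single_apply]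
      congr 1
      · split_ifs <;> simp
      · by_cases hk : k = i
        · by_cases hq : q.2 = j
          · simp [hk, hq]
          · simp [hk, hq, Ne.symm hq]
        · simp [hk, Ne.symm hk]
    rw [Finset.sum_congr rfl fun k _ => h2 k, Finset.sum_add_distrib, Finset.sum_ite_eq' , Finset.sum_ite_eq']
    simp
  rw [h1, Polynomial.eval_add, Polynomial.eval_C]
  congr 1
  split_ifs
  · rw [Polynomial.eval_mul, Polynomial.eval_X, Polynomial.eval_C]
  · rw [Polynomial.eval_zero]

theorem transv_core {n : ℕ} (W : Submodule ℝ (MvPolynomial (Fin n × Fin n) ℝ))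
    (hB : ∀ p ∈ W, ∀ B : Matrix (Fin n) (Fin n) ℝ, rmul B p ∈ W) (κ : Fin n → ℕ)
    (p : MvPolynomial (Fin n × Fin n) ℝ) (hp : p ∈ W) (h : ∀ α ∈ p.support, ∀ c, ∑ r, α (r, c) = κ c)
    (i j : Fin n) (hij : i ≠ j)
    (hno : ∀ (κ' : Fin n → ℕ) (k : ℕ), 1 ≤ k → κ' i = κ i + k → κ' j + k = κ j →
      (∀ l, l ≠ i → l ≠ j → κ' l = κ l) → ∀ q ∈ W, (∀ α ∈ q.support, ∀ c, ∑ r, α (r, c) = κ' c) → q = 0) (s : ℝ)
    (Y : Matrix (Fin n) (Fin n) ℝ) : evM (Y * Matrix.transvection i j s) p = evM Y p := by
  classical
  set f := Phi i j p with hf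
  have hev : ∀ t : ℝ, rmul (transvection i j t) p = ∑ k ∈ Finset.range (f.natDegree + 1), t ^ k • f.coeff k := by
    intro t
    rw [← Phi_eval, ← hf, Polynomial.eval_eq_sum_range]
    refine Finset.sum_congr rfl fun k _ => ?_
    rw [← map_pow, mul_comm, MvPolynomial.C_mul']
  have hmem : ∀ k ∈ Finset.range (f.natDegree + 1), f.coeff k ∈ W :=
    mem_of_pow W _ _ fun t => by
      rw [← hev t]
      exact hB p hp _
  have hzero : ∀ k ∈ Finset.range (f.natDegree + 1), 1 ≤ k → f.coeff k = 0 := by
    intro k hk hk1
    have hg := good_Phi i j κ p h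
    rw [← hf] at hg
    by_cases hkj : k ≤ κ j
    · refine hno (fun l => if l = i then κ i + k else if l = j then κ j - k else κ l) k hk1 (by simp)
        (by simp [Ne.symm hij]; omega) (fun l h1 h2 => by simp [h1, h2]) _ (hmem k hk) ?_
      intro α hα c
      have h3 := hg k α (by simpa using hα) c
      by_cases hci : c = i
      · have hcj : c ≠ j := by rw [hci]; exact hij
        rw [if_neg hcj, if_pos hci] at h3
        rw [if_pos hci]
        rw [← hci]
        omega
      · by_cases hcj : c = j
        · rw [if_pos hcj, if_neg hci] at h3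
          rw [if_neg hci, if_pos hcj, ← hcj]
          omega
        · rw [if_neg hcj, if_neg hci] at h3
          rw [if_neg hci, if_neg hcj]
          omega
    · by_contra hne
      obtain ⟨α, hα⟩ := MvPolynomial.ne_zero_iff.1 hne
      have h3 := hg k α hα j
      rw [if_pos rfl, if_neg (Ne.symm hij)] at h3
      omega
  have hconst : ∀ t : ℝ, rmul (transvection i j t) p = f.coeff 0 := by
    intro t
    rw [hev t, Finset.sum_eq_single 0]
    · simp
    · intro k hk hk0
      rw [hzero k hk (Nat.one_le_iff_ne_zero.2 hk0), smul_zero]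
    · intro hh
      exact absurd (Finset.mem_range.2 (Nat.succ_pos _)) hh
  rw [← evM_rmul, hconst s, ← hconst 0, evM_rmul]
  congr 1
  simp [transvection]

end Pool.Agent.H9.IR.C
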