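import Pool.Agent.H9.IR.Fi
import Pool.Agent.H9.IR.Hc

/-!
# Cocompact groups have the same invariants of `n` vectors as `SL(n, ℝ)`: conclusion
-/

set_option autoImplicit false

open MvPolynomial Matrix Module

namespace Pool.Agent.H9.IR

open Pool.Agent.H9.IQ

/-- the space of invariant polynomials of degree `N` -/
private def inv {n : ℕ} (Γ : Subgroup (SpecialLinearGroup (Fin n) ℝ)) (N : ℕ) :
    Submodule ℝ (MvPolynomial (Fin n × Fin n) ℝ) where
  carrier := {p | p.IsHomogeneous N ∧ ∀ γ ∈ Γ, LInv (γ : Matrix (Fin n) (Fin n) ℝ) p}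
  zero_mem' := ⟨isHomogeneous_zero _ _ _, fun γ _ Y => by
    show eval _ 0 = eval _ 0
    rw [map_zero, map_zero]⟩
  add_mem' := by
    rintro p q ⟨hp, hp'⟩ ⟨hq, hq'⟩
    refine ⟨hp.add hq, fun γ hγ Y => ?_⟩
    show eval _ (p + q) = eval _ (p + q)
    rw [map_add, map_add]
    have h1 := hp' γ hγ Y
    have h2 := hq' γ hγ Y
    unfold evM at h1 h2
    rw [h1, h2]
  smul_mem' := by
    rintro c p ⟨hp, hp'⟩
    refine ⟨?_, fun γ hγ Y => ?_⟩
    · rw [MvPolynomial.smul_eq_C_mul]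
      have := (isHomogeneous_C (Fin n × Fin n) c).mul hp
      rwa [zero_add] at this
    · show eval _ (c • p) = eval _ (c • p)
      rw [MvPolynomial.smul_eval, MvPolynomial.smul_eval]
      have h1 := hp' γ hγ Y
      unfold evM at h1
      rw [h1]

private theorem rmul_hom {n N : ℕ} (B : Matrix (Fin n) (Fin n) ℝ)
    (p : MvPolynomial (Fin n × Fin n) ℝ) (hp : p.IsHomogeneous N) :
    (rmul B p).IsHomogeneous N := by
  have h1 : ∀ q : Fin n × Fin n,
      (∑ k, C (B k q.2) * X (q.1, k) : MvPolynomial (Fin n × Fin n) ℝ).IsHomogeneous 1 := by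
    intro q
    refine IsHomogeneous.sum _ _ _ fun k _ => ?_
    have := (isHomogeneous_C (Fin n × Fin n) (B k q.2)).mul (isHomogeneous_X ℝ (q.1, k))
    rwa [zero_add] at this
  have h2 := hp.aeval _ h1
  rwa [one_mul] at h2

theorem same {n : ℕ} (H Γ : Subgroup (SpecialLinearGroup (Fin n) ℝ))
    (hc : ∃ C : Set (SpecialLinearGroup (Fin n) ℝ), IsCompact C ∧
      ∀ g, ∃ γ ∈ Γ, ∃ h ∈ H, γ * g * h ∈ C)
    (hP : ∀ d : ℕ, 0 < d → d < n → ∃ (k : ℕ) (P : MvPolynomial (Fin n × Fin d) ℝ),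
      0 < k ∧ P ≠ 0 ∧ Wt k P ∧ ∀ h ∈ H, ∀ v : Fin d → Fin n → ℝ,
        eval (flat fun j => (h : Matrix (Fin n) (Fin n) ℝ)ᵀ *ᵥ v j) P = eval (flat v) P)
    (f : MvPolynomial (Fin n × Fin n) ℝ)
    (hf : ∀ γ ∈ Γ, LInv (γ : Matrix (Fin n) (Fin n) ℝ) f) :
    ∃ q : Polynomial ℝ, ∀ Y : Matrix (Fin n) (Fin n) ℝ, evM Y f = q.eval Y.det := by
  classical
  have key : ∀ N : ℕ, ∃ a : ℕ, ∀ p ∈ inv Γ N, ∀ Y : Matrix (Fin n) (Fin n) ℝ,
      evM Y p = Y.det ^ a * evM 1 p := by
    intro N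
    rcases exists_hw (inv Γ N) (fun p hp => hp.1) (fun p hp B =>
      ⟨rmul_hom B p hp.1, fun γ hγ Y => by
        rw [evM_rmul, evM_rmul, Matrix.mul_assoc, hp.2 γ hγ]⟩) with h | h
    · obtain ⟨μ, p, hp, hp0, hanti, hne, hBW⟩ := h
      exfalso
      obtain ⟨L, Φ, hL, hΦ0, hΦw, hΦi⟩ := exists_phi
        {A : Matrix (Fin n) (Fin n) ℝ | ∃ h ∈ H, A = (h : Matrix (Fin n) (Fin n) ℝ)ᵀ}
        (by
          rintro _ ⟨h, _, rfl⟩
          rw [Matrix.det_transpose]
          exact h.2)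
        (by
          intro d hd hdn
          obtain ⟨k, P, hk, hP0, hPw, hPi⟩ := hP d hd hdn
          refine ⟨k, P, hk, hP0, hPw, ?_⟩
          rintro _ ⟨h, hh, rfl⟩ v
          exact hPi h hh v) μ hanti
      have hpL : BW (fun i => L * μ i) (p ^ L) := by
        intro B Y hB
        have h1 := hBW B Y hB
        show eval _ (p ^ L) = _ * eval _ (p ^ L)
        rw [map_pow, map_pow]
        unfold evM at h1
        rw [h1, mul_pow, ← Finset.prod_pow]
        congr 1
        refine Finset.prod_congr rfl fun i _ => ?_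
        rw [← pow_mul, mul_comm]
      have h2 := core_flag H Γ hc (fun i => L * μ i) (by
          obtain ⟨i, j, hij⟩ := hne
          exact ⟨i, j, fun h => hij (Nat.eq_of_mul_eq_mul_left hL h)⟩) Φ (p ^ L) hΦw hpL hΦ0
        (fun h hh => hΦi _ ⟨h, hh, rfl⟩)
        (fun γ hγ Y => by
          show eval _ (p ^ L) = eval _ (p ^ L)
          rw [map_pow, map_pow]
          have h1 := hp.2 γ hγ Y
          unfold evM at h1
          rw [h1])
      exact hp0 (pow_eq_zero_iff hL.ne' |>.1 h2)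
    · exact h
  choose a ha using key
  refine ⟨∑ N ∈ Finset.range (f.totalDegree + 1),
    Polynomial.C (evM 1 (homogeneousComponent N f)) * Polynomial.X ^ a N, fun Y => ?_⟩
  rw [Polynomial.eval_finsetSum]
  have h1 : evM Y f = ∑ N ∈ Finset.range (f.totalDegree + 1),
      evM Y (homogeneousComponent N f) := by
    show eval _ f = _
    conv_lhs => rw [← MvPolynomial.sum_homogeneousComponent f]
    rw [map_sum]
    rfl
  rw [h1]
  refine Finset.sum_congr rfl fun N _ => ?_
  have hmem : homogeneousComponent N f ∈ inv Γ N := by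
    refine ⟨homogeneousComponent_isHomogeneous N f, fun γ hγ Y => ?_⟩
    have h2 := hcomp_inv (σ := Fin n × Fin n)
      (fun x q => ((γ : Matrix (Fin n) (Fin n) ℝ) * (Matrix.of fun i j => x (i, j))) q.1 q.2)
      (fun t x => by
        funext q
        show ((γ : Matrix (Fin n) (Fin n) ℝ) * (Matrix.of fun i j => t * x (i, j))) q.1 q.2 =
          t * ((γ : Matrix (Fin n) (Fin n) ℝ) * (Matrix.of fun i j => x (i, j))) q.1 q.2
        rw [Matrix.mul_apply, Matrix.mul_apply, Finset.mul_sum]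
        refine Finset.sum_congr rfl fun i _ => ?_
        rw [Matrix.of_apply, Matrix.of_apply]
        ring) f (fun x => hf γ hγ (Matrix.of fun i j => x (i, j))) N (fun q => Y q.1 q.2)
    exact h2
  rw [ha N _ hmem Y]
  simp
  ring

end Pool.Agent.H9.IR
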