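import Pool.Agent.H9.IR.Defs

/-!
# Relative invariants of the transposed standard embedding

Proof. `A = diag(x, 1)`, `x` of size `m`, `det x = 1`. For `d ≤ n - m` take the determinant of the rows
`n - d, .., n - 1` of the `d` vectors (not moved by `A`), for `d ≥ m` the determinant of the rows
`0, .., d - 1` (multiplied by the `d × d` matrix `diag(x, 1)` of determinant 1). Weight 1.
-/

set_option autoImplicit false

open MvPolynomial Matrix

namespace Pool.Agent.H9.IR

open Pool.Agent.H9.IQ

/-- the minor of the rows `r` -/
private noncomputable def minr {n d : ℕ} (r : Fin d → Fin n) : MvPolynomial (Fin n × Fin d) ℝ :=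
  Matrix.det (Matrix.of fun i j : Fin d => (X (r i, j) : MvPolynomial (Fin n × Fin d) ℝ))

private theorem eval_minr {n d : ℕ} (r : Fin d → Fin n) (v : Fin d → Fin n → ℝ) :
    eval (flat v) (minr r) = Matrix.det (Matrix.of fun i j : Fin d => v j (r i)) := by
  unfold minr
  rw [RingHom.map_det]
  congr 1
  ext i j
  simp [flat]

private theorem minr_ne {n d : ℕ} (r : Fin d → Fin n) (hr : Function.Injective r) :
    minr r ≠ 0 := by
  classical
  intro h
  have h1 := eval_minr r (fun j => Pi.single (r j) 1)
  rw [h, map_zero] at h1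
  have h2 : (Matrix.of fun i j : Fin d => (Pi.single (r j) (1 : ℝ) : Fin n → ℝ) (r i)) = 1 := by
    ext i j
    rw [Matrix.of_apply, Matrix.one_apply, Pi.single_apply]
    by_cases hij : i = j
    · rw [if_pos hij, if_pos (by rw [hij])]
    · rw [if_neg hij, if_neg (fun h => hij (hr h))]
  rw [h2, Matrix.det_one] at h1
  exact zero_ne_one h1

private theorem minr_wt {n d : ℕ} (r : Fin d → Fin n) : Wt 1 (minr r) := by
  intro A v
  rw [eval_minr, eval_minr, pow_one, mul_comm, ← Matrix.det_mul]
  congr 1
  ext i j
  rw [Matrix.of_apply, Matrix.mul_apply, Finset.sum_apply]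
  refine Finset.sum_congr rfl fun k _ => ?_
  rw [Matrix.of_apply, Pi.smul_apply, smul_eq_mul, mul_comm]

theorem std_inv {m n d : ℕ} (hmn : m ≤ n) (hd : 0 < d) (hdn : d < n) (h : d ≤ n - m ∨ m ≤ d) :
    ∃ P : MvPolynomial (Fin n × Fin d) ℝ, P ≠ 0 ∧ Wt 1 P ∧
      ∀ (A : Matrix (Fin n) (Fin n) ℝ) (x : Matrix (Fin m) (Fin m) ℝ), x.det = 1 →
        (∀ i j : Fin n, A i j = if h : (i : ℕ) < m ∧ (j : ℕ) < m then x ⟨i, h.1⟩ ⟨j, h.2⟩
          else if i = j then 1 else 0) →
        ∀ v : Fin d → Fin n → ℝ, eval (flat fun j => A *ᵥ v j) P = eval (flat v) P := by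
  classical
  rcases h with h | h
  · -- the last rows
    obtain ⟨r, hr⟩ : ∃ r : Fin d → Fin n, ∀ i, (r i : ℕ) = n - d + i :=
      ⟨fun i => ⟨n - d + i, by omega⟩, fun i => rfl⟩
    have hinj : Function.Injective r := by
      intro i j hij
      have h1 := congrArg Fin.val hij
      rw [hr, hr] at h1
      exact Fin.ext (by omega)
    refine ⟨minr r, minr_ne r hinj, minr_wt r, fun A x _ hA v => ?_⟩
    rw [eval_minr, eval_minr]
    congr 1
    ext i j
    rw [Matrix.of_apply, Matrix.of_apply, Matrix.mulVec, dotProduct,
      Finset.sum_eq_single (r i)]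
    · rw [hA, dif_neg (by rw [hr]; omega), if_pos rfl, one_mul]
    · intro k _ hk
      rw [hA, dif_neg (by rw [hr]; omega), if_neg (Ne.symm hk), zero_mul]
    · intro h
      exact absurd (Finset.mem_univ _) h
  · -- the first rows
    obtain ⟨r, hr⟩ : ∃ r : Fin d → Fin n, ∀ i, (r i : ℕ) = i :=
      ⟨fun i => ⟨i, by omega⟩, fun i => rfl⟩
    have hinj : Function.Injective r := by
      intro i j hij
      have h1 := congrArg Fin.val hij
      rw [hr, hr] at h1
      exact Fin.ext h1
    refine ⟨minr r, minr_ne r hinj, minr_wt r, fun A x hx hA v => ?_⟩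
    rw [eval_minr, eval_minr]
    have hdet : (A.submatrix r r).det = 1 := by
      obtain ⟨e, he1, he2⟩ : ∃ e : Fin m ⊕ Fin (d - m) ≃ Fin d,
          (∀ i, (e (Sum.inl i) : ℕ) = i) ∧ ∀ i, (e (Sum.inr i) : ℕ) = m + i := by
        refine ⟨finSumFinEquiv.trans (finCongr (by omega)), fun i => ?_, fun i => ?_⟩
        · simp
        · simp
      rw [← Matrix.det_submatrix_equiv_self e]
      have h1 : (A.submatrix r r).submatrix e e = Matrix.fromBlocks x 0 0 1 := by
        ext a b
        rcases a with a | a <;> rcases b with b | b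
        · rw [Matrix.submatrix_apply, Matrix.submatrix_apply, Matrix.fromBlocks_apply₁₁, hA,
            dif_pos ⟨by rw [hr, he1]; exact a.2, by rw [hr, he1]; exact b.2⟩]
          congr 1 <;> exact Fin.ext (by simp [hr, he1])
        · rw [Matrix.submatrix_apply, Matrix.submatrix_apply, Matrix.fromBlocks_apply₁₂, hA,
            dif_neg (by rw [hr, hr, he1, he2]; omega), if_neg, Matrix.zero_apply]
          intro h2
          have h3 := congrArg Fin.val h2
          rw [hr, hr, he1, he2] at h3
          have := a.2
          omega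
        · rw [Matrix.submatrix_apply, Matrix.submatrix_apply, Matrix.fromBlocks_apply₂₁, hA,
            dif_neg (by rw [hr, hr, he1, he2]; omega), if_neg, Matrix.zero_apply]
          intro h2
          have h3 := congrArg Fin.val h2
          rw [hr, hr, he1, he2] at h3
          have := b.2
          omega
        · rw [Matrix.submatrix_apply, Matrix.submatrix_apply, Matrix.fromBlocks_apply₂₂, hA,
            dif_neg (by rw [hr, hr, he2, he2]; omega), Matrix.one_apply]
          by_cases hab : a = b
          · rw [if_pos (by rw [hab]), if_pos hab]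
          · rw [if_neg, if_neg hab]
            intro h2
            have h3 := congrArg Fin.val h2
            rw [hr, hr, he2, he2] at h3
            exact hab (Fin.ext (by omega))
      rw [h1, Matrix.det_fromBlocks_zero₂₁, hx, Matrix.det_one, mul_one]
    have hmul : (Matrix.of fun i j : Fin d => (A *ᵥ v j) (r i)) =
        A.submatrix r r * Matrix.of fun i j : Fin d => v j (r i) := by
      ext i j
      rw [Matrix.of_apply, Matrix.mul_apply, Matrix.mulVec, dotProduct]
      symm
      refine Fintype.sum_of_injective r hinj _ _ ?_ ?_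
      · intro k hk
        have hkd : d ≤ (k : ℕ) := by
          by_contra hlt
          push Not at hlt
          exact hk ⟨⟨k, hlt⟩, Fin.ext (by rw [hr])⟩
        rw [hA, dif_neg (by omega), if_neg, zero_mul]
        intro h2
        have h3 := congrArg Fin.val h2
        rw [hr] at h3
        have := i.2
        omega
      · intro k
        rw [Matrix.submatrix_apply, Matrix.of_apply]
    rw [hmul, Matrix.det_mul, hdet, one_mul]

end Pool.Agent.H9.IR
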