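import Pool.Agent.H9.IR.Sa
import Pool.Agent.H9.IR.St

/-!
# Cocompact groups have the same invariants of `n` covectors as `SL(n, ℝ)`, standard embedding
-/

set_option autoImplicit false

open MvPolynomial Matrix Module

namespace Pool.Agent.H9.IR

open Pool.Agent.H9.IQ

/-- the automorphism `g ↦ (g⁻¹)ᵀ` -/
private def tau (n : ℕ) : SpecialLinearGroup (Fin n) ℝ →* SpecialLinearGroup (Fin n) ℝ where
  toFun g := (g⁻¹).transpose
  map_one' := by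
    apply Subtype.ext
    rw [Matrix.SpecialLinearGroup.coe_transpose, inv_one, Matrix.SpecialLinearGroup.coe_one,
      Matrix.transpose_one]
  map_mul' g h := by
    apply Subtype.ext
    rw [Matrix.SpecialLinearGroup.coe_transpose, Matrix.SpecialLinearGroup.coe_mul,
      Matrix.SpecialLinearGroup.coe_transpose, Matrix.SpecialLinearGroup.coe_transpose,
      _root_.mul_inv_rev, Matrix.SpecialLinearGroup.coe_mul, Matrix.transpose_mul]

private theorem tau_val {n : ℕ} (g : SpecialLinearGroup (Fin n) ℝ) :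
    (tau n g : Matrix (Fin n) (Fin n) ℝ) =
      ((g⁻¹ : SpecialLinearGroup (Fin n) ℝ) : Matrix (Fin n) (Fin n) ℝ)ᵀ := rfl

private theorem tau_tau {n : ℕ} (g : SpecialLinearGroup (Fin n) ℝ) : tau n (tau n g) = g := by
  apply Subtype.ext
  rw [tau_val, ← map_inv, tau_val, Matrix.transpose_transpose, inv_inv]

private theorem tau_cont (n : ℕ) : Continuous (tau n) := by
  refine continuous_induced_rng.2 ?_
  have h1 : Continuous fun g : SpecialLinearGroup (Fin n) ℝ =>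
      ((g⁻¹ : SpecialLinearGroup (Fin n) ℝ) : Matrix (Fin n) (Fin n) ℝ) :=
    continuous_subtype_val.comp continuous_inv
  exact h1.matrix_transpose

theorem same_dual {n : ℕ} (H Γ : Subgroup (SpecialLinearGroup (Fin n) ℝ))
    (hc : ∃ C : Set (SpecialLinearGroup (Fin n) ℝ), IsCompact C ∧
      ∀ g, ∃ γ ∈ Γ, ∃ h ∈ H, γ * g * h ∈ C)
    (hP : ∀ d : ℕ, 0 < d → d < n → ∃ (k : ℕ) (P : MvPolynomial (Fin n × Fin d) ℝ),
      0 < k ∧ P ≠ 0 ∧ Wt k P ∧ ∀ h ∈ H, ∀ v : Fin d → Fin n → ℝ,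
        eval (flat fun j => (h : Matrix (Fin n) (Fin n) ℝ) *ᵥ v j) P = eval (flat v) P)
    (f : MvPolynomial (Fin n × Fin n) ℝ)
    (hf : ∀ γ ∈ Γ, LInv (γ : Matrix (Fin n) (Fin n) ℝ)ᵀ f) :
    ∃ q : Polynomial ℝ, ∀ Y : Matrix (Fin n) (Fin n) ℝ, evM Y f = q.eval Y.det := by
  refine same (H.map (tau n)) (Γ.map (tau n)) ?_ ?_ f ?_
  · obtain ⟨K, hK, hKg⟩ := hc
    refine ⟨tau n '' K, hK.image (tau_cont n), fun g => ?_⟩
    obtain ⟨γ, hγ, h, hh, hgh⟩ := hKg (tau n g)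
    refine ⟨tau n γ, ⟨γ, hγ, rfl⟩, tau n h, ⟨h, hh, rfl⟩, ⟨_, hgh, ?_⟩⟩
    rw [map_mul, map_mul, tau_tau]
  · intro d hd hdn
    obtain ⟨k, P, hk, hP0, hPw, hPi⟩ := hP d hd hdn
    refine ⟨k, P, hk, hP0, hPw, ?_⟩
    rintro _ ⟨h, hh, rfl⟩ v
    rw [tau_val, Matrix.transpose_transpose]
    exact hPi _ (H.inv_mem hh) v
  · rintro _ ⟨γ, hγ, rfl⟩ Y
    rw [tau_val]
    exact hf _ (Γ.inv_mem hγ) Y

/-- the standard embedding: all relative invariants exist if `2 m ≤ n + 1` -/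
theorem std_all {m n : ℕ} (hmn : m < n) (h2 : 2 * m ≤ n + 1)
    (ψ : SpecialLinearGroup (Fin m) ℝ →* SpecialLinearGroup (Fin n) ℝ)
    (hψ : ∀ (x : SpecialLinearGroup (Fin m) ℝ) (i j : Fin n),
      (ψ x : Matrix (Fin n) (Fin n) ℝ) i j = if h : (i : ℕ) < m ∧ (j : ℕ) < m then
        (x : Matrix (Fin m) (Fin m) ℝ) ⟨i, h.1⟩ ⟨j, h.2⟩ else if i = j then 1 else 0)
    (d : ℕ) (hd : 0 < d) (hdn : d < n) :
    ∃ P : MvPolynomial (Fin n × Fin d) ℝ, P ≠ 0 ∧ Wt 1 P ∧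
      (∀ x, ∀ v : Fin d → Fin n → ℝ,
        eval (flat fun j => (ψ x : Matrix (Fin n) (Fin n) ℝ) *ᵥ v j) P = eval (flat v) P) ∧
      ∀ x, ∀ v : Fin d → Fin n → ℝ,
        eval (flat fun j => (ψ x : Matrix (Fin n) (Fin n) ℝ)ᵀ *ᵥ v j) P = eval (flat v) P := by
  obtain ⟨P, hP0, hPw, hPi⟩ := std_inv hmn.le hd hdn (by omega)
  refine ⟨P, hP0, hPw, fun x v => ?_, fun x v => ?_⟩
  · exact hPi _ (x : Matrix (Fin m) (Fin m) ℝ) x.2 (hψ x) v
  · refine hPi _ (x : Matrix (Fin m) (Fin m) ℝ)ᵀ (by rw [Matrix.det_transpose]; exact x.2) ?_ v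
    intro i j
    rw [Matrix.transpose_apply, hψ]
    by_cases h : (j : ℕ) < m ∧ (i : ℕ) < m
    · rw [dif_pos h, dif_pos ⟨h.2, h.1⟩, Matrix.transpose_apply]
    · rw [dif_neg h, dif_neg (fun h' => h ⟨h'.2, h'.1⟩)]
      simp only [eq_comm]

end Pool.Agent.H9.IR
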